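import Pool.Agent.Helper14.SS.Diag
import Pool.Agent.Helper12.SS.Spec
import Pool.Agent.Helper32.SS.Bdd

/-!
# Spectra with quantifiers over small sets
-/

set_option autoImplicit false

namespace Pool.Agent.Helper14.SS

open FirstOrder FirstOrder.Language Pool.Agent.Helper20.Spectra Pool.Agent.Helper12.SS

/-- the translation from arithmetic on initial segments to spectra does not depend on `s` -/
theorem arith_unif (φ : SFm ArL 0 0) : ∃ Φ : SFm ArL 0 0, ∀ s : ℕ → ℕ,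
    specS s Φ = arithS s φ := by
  obtain ⟨ax, hax⟩ := Ax_FD
  refine ⟨.and (.fo ax) φ, fun s => ?_⟩
  ext n
  refine and_congr Iff.rfl ?_
  constructor
  · rintro ⟨M, T, F, hc, h1, h2⟩
    have hT := structure_eq T
    rw [hT] at h1 h2
    have h3 := (hax M _ Fin.elim0).1 h1
    obtain ⟨e, he⟩ := h3.exists_equiv hc
    have h4 := (holds_transport φ e _ (arI n) he.rel (s n) Fin.elim0 Fin.elim0).1 h2
    have e1 : e ∘ (Fin.elim0 : Fin 0 → M) = Fin.elim0 := by funext i; exact i.elim0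
    have e2 : (fun j => ((Fin.elim0 : Fin 0 → Finset M) j).map e.toEmbedding) = Fin.elim0 := by
      funext i; exact i.elim0
    rw [e1, e2] at h4
    exact h4
  · intro h
    refine ⟨Fin n, mkS (arI n), inferInstance, Fintype.card_fin n, ?_, h⟩
    exact (hax (Fin n) (arI n) Fin.elim0).2 (arI_st n).ax

/-- first-order sentences -/
theorem fo_unif {A : Set ℕ} (hA : IsSpectrum A) :
    ∃ (L : FirstOrder.Language.{0, 0}) (_ : Finite (Σ l, L.Functions l))
      (_ : Finite (Σ l, L.Relations l)) (Φ : SFm L 0 0), ∀ s : ℕ → ℕ, specS s Φ = A := by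
  obtain ⟨L, hF, hR, φ, hA⟩ := hA
  refine ⟨L, hF, hR, .fo (φ.relabel Empty.elim), fun s => ?_⟩
  rw [hA]
  ext n
  refine and_congr Iff.rfl ?_
  refine exists_congr (fun M => exists_congr (fun S => exists_congr (fun F => and_congr Iff.rfl ?_)))
  show (φ.relabel Empty.elim).Realize (Fin.elim0 : Fin 0 → M) ↔ φ.Realize M
  rw [Formula.realize_relabel]
  have e : (Fin.elim0 : Fin 0 → M) ∘ Empty.elim = (default : Empty → M) := by
    funext x; exact x.elim
  rw [e]
  rfl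

theorem trans_all : StmtTrans := trans t_num t_exCd t_add t_mul

/-- Small sets. -/
theorem smallSets :
    (∃ (L : FirstOrder.Language.{0, 0}) (_ : Finite (Σ l, L.Functions l))
      (_ : Finite (Σ l, L.Relations l)) (Φ : SFm L 0 0),
      ∀ s : ℕ → ℕ, Monotone s → (∀ b, ∃ n, b < s n) → ¬ IsRudimentary (specS s Φ)) ∧
    ((∀ A, IsSpectrum A → IsRudimentary A) → ∃ φ : SFm ArL 0 0,
      ∀ s : ℕ → ℕ, Monotone s → (∀ b, ∃ n, b < s n) → ¬ IsRudimentary (arithS s φ)) ∧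
    (∀ (s : ℕ → ℕ) (A : Set ℕ), IsSpectrum A ∨ SetArith s A → SetSpectrum s A) ∧
    ∀ s : ℕ → ℕ, Monotone s → (∃ b, ∀ n, s n ≤ b) →
      ∀ A : Set ℕ, SetSpectrum s A ↔ IsSpectrum A := by
  have h2 : (∀ A, IsSpectrum A → IsRudimentary A) → ∃ φ : SFm ArL 0 0,
      ∀ s : ℕ → ℕ, Monotone s → (∀ b, ∃ n, b < s n) → ¬ IsRudimentary (arithS s φ) := by
    intro hQ
    obtain ⟨φ, hφ⟩ := diag_unif trans_all hQ
    exact ⟨φ, fun s hs hu => hφ s hs (fun b => (hu b).imp (fun n hn => hn.le))⟩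
  refine ⟨?_, h2, ?_, ?_⟩
  · by_cases hQ : ∀ A, IsSpectrum A → IsRudimentary A
    · obtain ⟨φ, hφ⟩ := h2 hQ
      obtain ⟨Φ, hΦ⟩ := arith_unif φ
      refine ⟨ArL, inferInstance, inferInstance, Φ, fun s hs hu => ?_⟩
      rw [hΦ]
      exact hφ s hs hu
    · push Not at hQ
      obtain ⟨A, hA, hAr⟩ := hQ
      obtain ⟨L, hF, hR, Φ, hΦ⟩ := fo_unif hA
      refine ⟨L, hF, hR, Φ, fun s _ _ => ?_⟩
      rw [hΦ]
      exact hAr
  · rintro s A (h | h)
    · exact t_spec s A h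
    · exact t_arith s A h
  · rintro s hs ⟨b, hb⟩ A
    exact ⟨bdd s hs b hb A, t_spec s A⟩

end Pool.Agent.Helper14.SS
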