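import Pool.Agent.Helper20.Spectra.FD

/-!
# Spectra with quantifiers over small sets: definitions
-/

set_option autoImplicit false

namespace Pool.Agent.Helper14.SS

open FirstOrder Pool.Agent.Helper20.Spectra

/-- Formulas over the vocabulary `L` with first-order quantifiers and set quantifiers:
`SFm L k m` has the `k` free element variables `0, ..., k - 1` and the `m` free set variables
`0, ..., m - 1`. -/
inductive SFm (L : FirstOrder.Language.{0, 0}) : ℕ → ℕ → Type
  | fo {k m : ℕ} (φ : L.Formula (Fin k)) : SFm L k m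
  | mem {k m : ℕ} (i : Fin k) (j : Fin m) : SFm L k m
  | not {k m : ℕ} (φ : SFm L k m) : SFm L k m
  | and {k m : ℕ} (φ ψ : SFm L k m) : SFm L k m
  | ex {k m : ℕ} (φ : SFm L (k + 1) m) : SFm L k m
  | exSet {k m : ℕ} (φ : SFm L k (m + 1)) : SFm L k m

/-- Truth of `φ` in the structure `M` when the set variables range over the subsets of `M` with
at most `b` elements: `fo φ` is the first-order formula `φ`, `mem i j` says that element `i` is in
set `j`, `ex` quantifies a new element variable `0`, and `exSet` a new set variable `0`. -/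
def SFm.Holds {L : FirstOrder.Language.{0, 0}} {M : Type} [L.Structure M] (b : ℕ) :
    {k m : ℕ} → SFm L k m → (Fin k → M) → (Fin m → Finset M) → Prop
  | _, _, .fo φ, v, _ => φ.Realize v
  | _, _, .mem i j, v, V => v i ∈ V j
  | _, _, .not φ, v, V => ¬ φ.Holds b v V
  | _, _, .and φ ψ, v, V => φ.Holds b v V ∧ ψ.Holds b v V
  | _, _, .ex φ, v, V => ∃ x : M, φ.Holds b (Fin.cons x v) V
  | _, _, .exSet φ, v, V => ∃ X : Finset M, X.card ≤ b ∧ φ.Holds b v (Fin.cons X V)

/-- The class `S_s`: the spectra of sentences with first-order quantifiers and set quantifiers,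
where in an `n`-element structure the set variables range over the subsets with at most `s n`
elements. -/
def SetSpectrum (s : ℕ → ℕ) (A : Set ℕ) : Prop :=
  ∃ (L : FirstOrder.Language.{0, 0}) (_ : Finite (Σ l, L.Functions l))
    (_ : Finite (Σ l, L.Relations l)) (φ : SFm L 0 0),
    A = {n : ℕ | 1 ≤ n ∧ ∃ (M : Type) (_ : L.Structure M) (_ : Fintype M),
      Fintype.card M = n ∧ φ.Holds (M := M) (s n) Fin.elim0 Fin.elim0}

/-- the vocabulary of two ternary relation symbols, for addition and multiplication -/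
abbrev ArL : FirstOrder.Language.{0, 0} := RelLang Bool (fun _ => 3)

/-- addition (`true`) and multiplication (`false`) on `{0, ..., n - 1}`, as ternary relations -/
def arI (n : ℕ) : Interp Bool (fun _ => 3) (Fin n) := fun s v =>
  match s with
  | true => (v 0 : ℕ) + (v 1 : ℕ) = (v 2 : ℕ)
  | false => (v 0 : ℕ) * (v 1 : ℕ) = (v 2 : ℕ)

/-- The class `RUD_s`: the sets of all `n ≥ 1` such that the sentence `φ` with first-order
quantifiers and set quantifiers holds in the structure `({0, ..., n - 1}, +, ·)`, the set variables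
ranging over the sets with at most `s n` elements. -/
def SetArith (s : ℕ → ℕ) (A : Set ℕ) : Prop :=
  ∃ φ : SFm ArL 0 0,
    A = {n : ℕ | 1 ≤ n ∧ @SFm.Holds ArL (Fin n) (mkS (arI n)) (s n) 0 0 φ Fin.elim0 Fin.elim0}

/-- The spectrum of the sentence `φ` with respect to `s`: in an `n`-element structure the set
variables range over the subsets with at most `s n` elements. -/
def specS {L : FirstOrder.Language.{0, 0}} (s : ℕ → ℕ) (φ : SFm L 0 0) : Set ℕ :=
  {n : ℕ | 1 ≤ n ∧ ∃ (M : Type) (_ : L.Structure M) (_ : Fintype M),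
    Fintype.card M = n ∧ φ.Holds (M := M) (s n) Fin.elim0 Fin.elim0}

/-- The set of all `n ≥ 1` such that `φ` holds in `({0, ..., n - 1}, +, ·)`, the set variables
ranging over the sets with at most `s n` elements. -/
def arithS (s : ℕ → ℕ) (φ : SFm ArL 0 0) : Set ℕ :=
  {n : ℕ | 1 ≤ n ∧ @SFm.Holds ArL (Fin n) (mkS (arI n)) (s n) 0 0 φ Fin.elim0 Fin.elim0}

/-! ## Definability over `({0, ..., n - 1}, +, ·)` with sets of at most `b` elements -/

/-- predicates of `n`, `b`, elements and sets of elements -/
abbrev Pd (k m : ℕ) := ∀ n _ : ℕ, (Fin k → Fin n) → (Fin m → Finset (Fin n)) → Prop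

/-- definable predicates -/
def NS (k m : ℕ) (P : Pd k m) : Prop :=
  ∃ φ : SFm ArL k m, ∀ (n b : ℕ) (v : Fin k → Fin n) (V : Fin m → Finset (Fin n)),
    @SFm.Holds ArL (Fin n) (mkS (arI n)) b k m φ v V ↔ P n b v V

/-- the number `a` belongs to `X` -/
def inV {n : ℕ} (X : Finset (Fin n)) (a : ℕ) : Prop := ∃ x ∈ X, (x : ℕ) = a

/-- `X` codes the number `x < B ^ M` in base `B`, with offset `o` -/
def Cd {n : ℕ} (B M o : ℕ) (X : Finset (Fin n)) (x : ℕ) : Prop :=
  x < B ^ M ∧ ∀ i, i < M → ∀ d, d < B → (inV X ((o + i) * B + d) ↔ x / B ^ i % B = d)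

end Pool.Agent.Helper14.SS
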