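import Pool.Agent.Helper14.SS.Defs
import Pool.Agent.Helper20.Spectra.Defs

/-!
# Spectra with quantifiers over small sets: statements of the blocks
-/

set_option autoImplicit false

namespace Pool.Agent.Helper14.SS

open FirstOrder Pool.Agent.Helper20.Spectra

/-- T2a (helper38) -/
def StmtSpec : Prop := ∀ (s : ℕ → ℕ) (A : Set ℕ), IsSpectrum A → SetSpectrum s A

/-- T2b (helper38): library `AxA`, `Std` with `K = 0` -/
def StmtArith : Prop := ∀ (s : ℕ → ℕ) (A : Set ℕ), SetArith s A → SetSpectrum s A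

/-- T3 (helper32) -/
def StmtBdd : Prop := ∀ (s : ℕ → ℕ), Monotone s → ∀ b : ℕ, (∀ n, s n ≤ b) →
  ∀ A : Set ℕ, SetSpectrum s A → IsSpectrum A

/-! ## T4 (helper12): digit arithmetic, semantic part -/

/-- `X` has exactly one digit in each of the positions `o, ..., o + M - 1` -/
def Num {n : ℕ} (B M o : ℕ) (X : Finset (Fin n)) : Prop :=
  ∀ i, i < M → ∃ d, d < B ∧ inV X ((o + i) * B + d) ∧
    ∀ d', d' < B → inV X ((o + i) * B + d') → d' = d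

/-- digitwise form of `x + e * B ^ j * y = z`; carries in `C` -/
def Axpy {n : ℕ} (B M : ℕ) (X : Finset (Fin n)) (oX : ℕ) (Y : Finset (Fin n))
    (Z : Finset (Fin n)) (oZ : ℕ) (e j : ℕ) (C : Finset (Fin n)) (oC : ℕ) : Prop :=
  (∀ l, l < M → M ≤ l + j → 1 ≤ e → inV Y (l * B + 0)) ∧
  ∀ i, i < M → ∃ x, x < B ∧ ∃ y, y < B ∧ ∃ z, z < B ∧ ∃ c, c < B ∧ ∃ c', c' < B ∧
    inV X ((oX + i) * B + x) ∧
    ((∃ l, l < M ∧ l + j = i ∧ inV Y (l * B + y)) ∨ (i < j ∧ y = 0)) ∧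
    inV Z ((oZ + i) * B + z) ∧ inV C ((oC + i) * B + c) ∧ (i = 0 → c = 0) ∧
    ((i + 1 < M ∧ inV C ((oC + i + 1) * B + c')) ∨ (i + 1 = M ∧ c' = 0)) ∧
    z + B * c' = x + e * y + c

/-- school book multiplication: the row `j` of the table `T` is `(x mod B ^ j) * y` -/
def MulT {n : ℕ} (B M : ℕ) (X Y Z T C : Finset (Fin n)) : Prop :=
  (∀ j, j ≤ M → Num B M (j * M) T) ∧ (∀ j, j < M → Num B M (j * M) C) ∧
  (∀ i, i < M → inV T (i * B + 0)) ∧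
  (∀ i, i < M → ∀ d, d < B → (inV T ((M * M + i) * B + d) ↔ inV Z (i * B + d))) ∧
  ∀ j, j < M → ∃ e, e < B ∧ inV X (j * B + e) ∧
    Axpy B M T (j * M) Y T ((j + 1) * M) e j C (j * M)

/-- T4a -/
def StmtNum : Prop := ∀ (n B M o : ℕ) (X : Finset (Fin n)), 1 ≤ B →
  (Num B M o X ↔ ∃ x, Cd B M o X x)

/-- T4b -/
def StmtUniq : Prop := ∀ (n B M o : ℕ) (X : Finset (Fin n)) (x y : ℕ), 1 ≤ B →
  Cd B M o X x → Cd B M o X y → x = y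

/-- T4c -/
def StmtExCd : Prop := ∀ (n B M x : ℕ), 1 ≤ B → x < B ^ M → M * B ≤ n →
  ∃ X : Finset (Fin n), X.card ≤ M ∧ Cd B M 0 X x

/-- T4d -/
def StmtAdd : Prop := ∀ (n b B M : ℕ) (X Y Z : Finset (Fin n)) (x y z : ℕ), 2 ≤ B → M ≤ b →
  M * B ≤ n → Cd B M 0 X x → Cd B M 0 Y y → Cd B M 0 Z z →
  ((∃ C : Finset (Fin n), C.card ≤ b ∧ Num B M 0 C ∧ Axpy B M X 0 Y Z 0 1 0 C 0) ↔ x + y = z)

/-- T4e -/
def StmtMul : Prop := ∀ (n b B M : ℕ) (X Y Z : Finset (Fin n)) (x y z : ℕ), 2 ≤ B →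
  (M + 1) * M ≤ b → (M + 1) * M * B ≤ n → Cd B M 0 X x → Cd B M 0 Y y → Cd B M 0 Z z →
  ((∃ T : Finset (Fin n), T.card ≤ b ∧ ∃ C : Finset (Fin n), C.card ≤ b ∧ MulT B M X Y Z T C) ↔
    x * y = z)

/-! ## The blocks of helper14 -/

/-- T5: bounded formulas on coded numbers; `w = (B, M)` -/
def StmtTrans : Prop := ∀ (k : ℕ) (S : Set (Fin k → ℕ)), Rud k S →
  ∃ (e : ℕ) (P : Pd 2 k), NS 2 k P ∧ ∀ (n b : ℕ) (w : Fin 2 → Fin n) (B M : ℕ),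
    (w 0 : ℕ) = B → (w 1 : ℕ) = M → 2 ≤ B → e ≤ B → B * B ≤ n → (M + 1) * M ≤ b →
    (M + 1) * M * B ≤ n → ∀ (X : Fin k → Finset (Fin n)) (x : Fin k → ℕ),
      (∀ i, Cd B M 0 (X i) (x i)) → ∀ W, (∀ i, x i ≤ W) → (W + 2) ^ e ≤ B ^ M →
        (P n b w X ↔ x ∈ S)

/-- T6: the diagonal set -/
def StmtDiag : Prop := ∀ s : ℕ → ℕ, Monotone s → (∀ b, ∃ n, b ≤ s n) →
  (∀ A, IsSpectrum A → IsRudimentary A) → ∃ D, SetArith s D ∧ ¬ IsRudimentary D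

end Pool.Agent.Helper14.SS
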