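import Pool.Agent.Helper14.SS.Trans
import Pool.Agent.Helper12.SS.T4
import Pool.Agent.Helper20.Sparse.Pow

/-!
# The diagonal set
-/

set_option autoImplicit false

namespace Pool.Agent.Helper14.SS

open FirstOrder Pool.Agent.Helper20.Spectra Pool.Agent.Helper12.SS

/-- the coded number is `a0 + a1 * B + a2 * B * B` -/
def Dig3 {n : ℕ} (B M : ℕ) (Z : Finset (Fin n)) (a0 a1 a2 : ℕ) : Prop :=
  inV Z (0 * B + a0) ∧ (inV Z (1 * B + a1) ∧ (inV Z (2 * B + a2) ∧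
    ∀ i, i < M → (¬ i < 3 → inV Z (i * B + 0))))

/-- three digits -/
def d3 (a0 a1 a2 : ℕ) : ℕ → ℕ
  | 0 => a0
  | 1 => a1
  | 2 => a2
  | _ + 3 => 0

lemma dval_d3 (B a0 a1 a2 M : ℕ) : dval B (3 + M) (d3 a0 a1 a2) = a0 + a1 * B + a2 * B * B := by
  induction M with
  | zero =>
    simp [dval, Finset.sum_range_succ, d3]
    ring
  | succ M ih =>
    rw [← add_assoc, dval_succ, ih]
    have : d3 a0 a1 a2 (3 + M) = 0 := by rw [add_comm]; rfl
    rw [this]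
    ring

lemma d3_lt {B a0 a1 a2 : ℕ} (h0 : a0 < B) (h1 : a1 < B) (h2 : a2 < B) (i : ℕ) :
    d3 a0 a1 a2 i < B := by
  match i with
  | 0 => exact h0
  | 1 => exact h1
  | 2 => exact h2
  | _ + 3 => exact Nat.zero_lt_of_lt h0

lemma dig3_iff {n B M : ℕ} {Z : Finset (Fin n)} {z a0 a1 a2 : ℕ} (hM : 3 ≤ M) (h0 : a0 < B)
    (h1 : a1 < B) (h2 : a2 < B) (hZ : Cd B M 0 Z z) :
    Dig3 B M Z a0 a1 a2 ↔ z = a0 + a1 * B + a2 * B * B := by
  have hB : 1 ≤ B := by omega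
  obtain ⟨M', rfl⟩ : ∃ M', M = 3 + M' := ⟨M - 3, by omega⟩
  have hv := dval_d3 B a0 a1 a2 M'
  have hd : ∀ i, i < 3 + M' → dg B (a0 + a1 * B + a2 * B * B) i = d3 a0 a1 a2 i := by
    rw [← hv]
    exact dg_dval (fun i _ => d3_lt h0 h1 h2 i)
  have hlt : a0 + a1 * B + a2 * B * B < B ^ (3 + M') := by
    rw [← hv]
    exact dval_lt (fun i _ => d3_lt h0 h1 h2 i)
  have key : Dig3 B (3 + M') Z a0 a1 a2 ↔ ∀ i, i < 3 + M' → dg B z i = d3 a0 a1 a2 i := by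
    have hc : ∀ i, i < 3 + M' → ∀ d, d < B → (inV Z (i * B + d) ↔ dg B z i = d) := by
      intro i hi d hd
      have := hZ.2 i hi d hd
      rw [zero_add] at this
      exact this
    constructor
    · rintro ⟨g0, g1, g2, g3⟩ i hi
      match i with
      | 0 => exact (hc 0 hi a0 h0).1 g0
      | 1 => exact (hc 1 hi a1 h1).1 g1
      | 2 => exact (hc 2 hi a2 h2).1 g2
      | j + 3 => exact (hc (j + 3) hi 0 (by omega)).1 (g3 (j + 3) hi (by omega))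
    · intro h
      refine ⟨(hc 0 (by omega) a0 h0).2 (h 0 (by omega)), (hc 1 (by omega) a1 h1).2
        (h 1 (by omega)), (hc 2 (by omega) a2 h2).2 (h 2 (by omega)), fun i hi h3 => ?_⟩
      obtain ⟨j, rfl⟩ : ∃ j, i = j + 3 := ⟨i - 3, by omega⟩
      exact (hc (j + 3) hi 0 (by omega)).2 (h (j + 3) hi)
  rw [key]
  constructor
  · intro h
    exact eq_of_dg hB hZ.1 hlt (fun i hi => (h i hi).trans (hd i hi).symm)
  · rintro rfl i hi
    exact hd i hi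

lemma NS.dig3 {k m : ℕ} {s t u : (Fin k → ℕ) → ℕ} (iB iM : Fin k)
    (hs : Pool.Agent.Helper20.Spectra.IsPoly k s) (ht : Pool.Agent.Helper20.Spectra.IsPoly k t)
    (hu : Pool.Agent.Helper20.Spectra.IsPoly k u) (Z : Fin m) :
    NS k m (fun _ _ v V => Dig3 (v iB : ℕ) (v iM : ℕ) (V Z) (s (vn v)) (t (vn v))
      (u (vn v))) := by
  unfold Dig3
  refine NS.and (NS.inV (((pc 0).mul (IsPoly.var iB)).add hs) Z) (NS.and
    (NS.inV (((pc 1).mul (IsPoly.var iB)).add ht) Z) (NS.and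
    (NS.inV (((pc 2).mul (IsPoly.var iB)).add hu) Z) (NS.alllt iM (NS.imp (NS.not ?_)
    (NS.inV (((IsPoly.var 0).mul (IsPoly.var iB.succ)).add (pc 0)) Z)))))
  -- `i < 3`
  have h0 : NS (k + 1) m (fun _ _ v _ => (v 0 : ℕ) = 0 ∨ (v 0 : ℕ) = 1 ∨ (2 : ℕ) = (v 0 : ℕ)) :=
    (NS.zero 0).or ((NS.one 0).or (NS.val (pc 2) 0))
  exact h0.congr (fun n b v V => by omega)

/-- the universal relation `(y, n, k, t)` -/
def UV : Set (Fin 4 → ℕ) :=
  {w | w 0 = w 1 ^ (w 2 + 1) ∧ (w 0 + 2 + w 3) ^ 2 + w 3 ∈ univSizes}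

lemma rud_UV (hQ : SRud) : Rud 4 UV := by
  have h1 : RudX (fun x : Empty => x.elim) 4 (fun _ w => w 0 = w 1 ^ (w 2 + 1) ∧
      (w 0 + 2 + w 3) ^ 2 + w 3 ∈ univSizes) :=
    (RudX.pow (powRud hQ) ((IsPoly.var 2).add (pc 1)) (IsPoly.var 1) (IsPoly.var 0)).and'
      (RudX.mem (hQ _ univSizes_spectrum) (((((IsPoly.var 0).add (pc 2)).add
        (IsPoly.var 3)).pow 2).add (IsPoly.var 3)))
  exact h1.toRud

/-- the diagonal predicate -/
def Dp (P : Pd 2 4) (e : ℕ) : Pd 0 0 := fun n b _ _ =>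
  ∃ B M k t m0 L a0 a1 U : Fin n,
    (∀ x : Fin n, ¬ (m0 : ℕ) < (x : ℕ)) ∧
    ((B : ℕ) * B + (((k : ℕ) + t) ^ 2 + k) = (m0 : ℕ) ∧
    (((((k : ℕ) + t) ^ 2 + k < 2 * (B : ℕ) + 1) ∧ 2 * (B : ℕ) + 1 < n) ∧
    (4 * ((k : ℕ) + 2) = (L : ℕ) ∧
    ((e + 1) * ((L : ℕ) + 1) = (M : ℕ) ∧
    (((M : ℕ) + 1) * M = (U : ℕ) ∧
    (((U : ℕ) * B = (U : ℕ) * B ∧ (U : ℕ) * B < n) ∧
    (e + 3 < (B : ℕ) ∧
    ((((a1 : ℕ) * B + a0 = ((k : ℕ) + t) ^ 2 + k + 1) ∧ ((k : ℕ) + t) ^ 2 + k + 1 < n) ∧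
    ((a0 : ℕ) < (B : ℕ) ∧
    ((a1 : ℕ) < (B : ℕ) ∧
    ((∃ X : Finset (Fin n), X.card ≤ b ∧ ∀ a, a < (U : ℕ) → inV X a) ∧
    ¬ ∃ Y : Finset (Fin n), Y.card ≤ b ∧ ∃ N : Finset (Fin n), N.card ≤ b ∧
      ∃ K : Finset (Fin n), K.card ≤ b ∧ ∃ T : Finset (Fin n), T.card ≤ b ∧
      (Num (B : ℕ) (M : ℕ) 0 Y ∧ (Num (B : ℕ) (M : ℕ) 0 N ∧ (Num (B : ℕ) (M : ℕ) 0 K ∧
      (Num (B : ℕ) (M : ℕ) 0 T ∧
      ((∀ i, i < (M : ℕ) → (¬ i < (L : ℕ) → inV Y (i * (B : ℕ) + 0))) ∧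
      (Dig3 (B : ℕ) (M : ℕ) N (a0 : ℕ) (a1 : ℕ) 1 ∧
      (Dig3 (B : ℕ) (M : ℕ) K (k : ℕ) 0 0 ∧
      (Dig3 (B : ℕ) (M : ℕ) T (t : ℕ) 0 0 ∧
      P n b ![B, M] ![Y, N, K, T])))))))))))))))))))

lemma NS_Dp {P : Pd 2 4} (hP : NS 2 4 P) (e : ℕ) : NS 0 0 (Dp P e) := by
  unfold Dp
  refine NS.ex (NS.ex (NS.ex (NS.ex (NS.ex (NS.ex (NS.ex (NS.ex (NS.ex ?_))))))))
  -- `U` 0, `a1` 1, `a0` 2, `L` 3, `m0` 4, `t` 5, `k` 6, `M` 7, `B` 8
  have hr : Pool.Agent.Helper20.Spectra.IsPoly 9 (fun v => (v 6 + v 5) ^ 2 + v 6) :=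
    (((IsPoly.var 6).add (IsPoly.var 5)).pow 2).add (IsPoly.var 6)
  refine NS.and (NS.all (NS.lt 5 0).not) ?_
  refine NS.and (NS.val (((IsPoly.var 8).mul (IsPoly.var 8)).add hr) 4) ?_
  refine NS.and (NS.plt hr (((pc 2).mul (IsPoly.var 8)).add (pc 1))) ?_
  refine NS.and (NS.val ((pc 4).mul ((IsPoly.var 6).add (pc 2))) 3) ?_
  refine NS.and (NS.val ((pc (e + 1)).mul ((IsPoly.var 3).add (pc 1))) 7) ?_
  refine NS.and (NS.val (((IsPoly.var 7).add (pc 1)).mul (IsPoly.var 7)) 0) ?_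
  refine NS.and (NS.peq ((IsPoly.var 0).mul (IsPoly.var 8))
    ((IsPoly.var 0).mul (IsPoly.var 8))) ?_
  refine NS.and (NS.ltv (pc (e + 3)) 8) ?_
  refine NS.and (NS.peq (((IsPoly.var 1).mul (IsPoly.var 8)).add (IsPoly.var 2))
    (hr.add (pc 1))) ?_
  refine NS.and (NS.lt 2 8) ?_
  refine NS.and (NS.lt 1 8) ?_
  refine NS.and (NS.exS (NS.alllt 0 (NS.inV (IsPoly.var 0) 0))) ?_
  refine NS.not (NS.exS (NS.exS (NS.exS (NS.exS ?_))))
  -- `T` 0, `K` 1, `N` 2, `Y` 3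
  refine NS.and (NS.num 8 7 (pc 0) 3) (NS.and (NS.num 8 7 (pc 0) 2) (NS.and
    (NS.num 8 7 (pc 0) 1) (NS.and (NS.num 8 7 (pc 0) 0) ?_)))
  refine NS.and (NS.alllt 7 (NS.imp (NS.lt 0 4).not
    (NS.inV (((IsPoly.var 0).mul (IsPoly.var 9)).add (pc 0)) 3))) ?_
  refine NS.and (NS.dig3 8 7 (IsPoly.var 2) (IsPoly.var 1) (pc 1) 2) ?_
  refine NS.and (NS.dig3 8 7 (IsPoly.var 6) (pc 0) (pc 0) 1) ?_
  refine NS.and (NS.dig3 8 7 (IsPoly.var 5) (pc 0) (pc 0) 0) ?_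
  refine (hP.sub (k' := 9) (m' := 4) ![8, 7] ![3, 2, 1, 0]).congr (fun n b v V => ?_)
  have e1 : (v ∘ ![8, 7]) = ![v 8, v 7] := by
    funext i
    fin_cases i <;> rfl
  have e2 : (V ∘ ![3, 2, 1, 0]) = ![V 3, V 2, V 1, V 0] := by
    funext i
    fin_cases i <;> rfl
  rw [e1, e2]
  exact Iff.rfl

/-- the property of the predicate `P` which evaluates `UV` on coded numbers -/
def EvUV (P : Pd 2 4) (e : ℕ) : Prop := ∀ (n b : ℕ) (w : Fin 2 → Fin n) (B M : ℕ),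
    (w 0 : ℕ) = B → (w 1 : ℕ) = M → 2 ≤ B → e ≤ B → B * B ≤ n → (M + 1) * M ≤ b →
    (M + 1) * M * B ≤ n → ∀ (X : Fin 4 → Finset (Fin n)) (x : Fin 4 → ℕ),
      (∀ i, Cd B M 0 (X i) (x i)) → ∀ W, (∀ i, x i ≤ W) → (W + 2) ^ e ≤ B ^ M →
        (P n b w X ↔ x ∈ UV)

lemma card_of_initial {n U : ℕ} {X : Finset (Fin n)} (h : ∀ a, a < U → inV X a) :
    U ≤ X.card := by
  have h1 : Finset.range U ⊆ X.image (fun x : Fin n => (x : ℕ)) := by
    intro a ha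
    obtain ⟨x, hx, hxa⟩ := h a (Finset.mem_range.1 ha)
    exact Finset.mem_image.2 ⟨x, hx, hxa⟩
  calc U = (Finset.range U).card := (Finset.card_range U).symm
    _ ≤ _ := Finset.card_le_card h1
    _ ≤ _ := Finset.card_image_le

lemma ex_initial {n U : ℕ} (hU : U ≤ n) :
    ∃ X : Finset (Fin n), X.card ≤ U ∧ ∀ a, a < U → inV X a := by
  refine ⟨Finset.univ.filter (fun x : Fin n => (x : ℕ) < U), ?_, fun a ha => ?_⟩
  · have h1 : (Finset.univ.filter (fun x : Fin n => (x : ℕ) < U)).map Fin.valEmbedding ⊆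
        Finset.range U := by
      intro a ha
      obtain ⟨x, hx, hxa⟩ := Finset.mem_map.1 ha
      rw [Finset.mem_range, ← hxa]
      exact (Finset.mem_filter.1 hx).2
    calc _ = ((Finset.univ.filter (fun x : Fin n => (x : ℕ) < U)).map Fin.valEmbedding).card :=
          (Finset.card_map _).symm
      _ ≤ (Finset.range U).card := Finset.card_le_card h1
      _ = U := Finset.card_range U
  · exact ⟨⟨a, by omega⟩, Finset.mem_filter.2 ⟨Finset.mem_univ _, ha⟩, rfl⟩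

lemma sq_unique {B B' r r' : ℕ} (h : B * B + r = B' * B' + r') (hr : r < 2 * B + 1)
    (hr' : r' < 2 * B' + 1) : B = B' ∧ r = r' := by
  have h1 : B = B' := by
    rcases Nat.lt_trichotomy B B' with h2 | h2 | h2
    · have : (B + 1) * (B + 1) ≤ B' * B' := Nat.mul_le_mul h2 h2
      nlinarith
    · exact h2
    · have : (B' + 1) * (B' + 1) ≤ B * B := Nat.mul_le_mul h2 h2
      nlinarith
  subst h1
  exact ⟨rfl, by omega⟩

lemma bounds {B k t L M n e : ℕ} (hn : n = B * B + ((k + t) ^ 2 + k) + 1)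
    (hr : (k + t) ^ 2 + k < 2 * B + 1) (hL : 4 * (k + 2) = L) (hM : (e + 1) * (L + 1) = M)
    (hB : 3 < B) : n ^ (k + 1) < B ^ L ∧ n < B ^ L ∧ k < B ∧ t < B ∧
      (B ^ L - 1 + 2) ^ e ≤ B ^ M ∧ L < M ∧ 3 ≤ M := by
  have hkB : k < B := by
    by_contra h
    have h1 : B * B ≤ (k + t) * (k + t) := Nat.mul_le_mul (by omega) (by omega)
    have h2 : 4 * B ≤ B * B := Nat.mul_le_mul_right _ hB
    rw [pow_two] at hr
    omega
  have htB : t < B := by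
    by_contra h
    have h1 : B * B ≤ (k + t) * (k + t) := Nat.mul_le_mul (by omega) (by omega)
    have h2 : 4 * B ≤ B * B := Nat.mul_le_mul_right _ hB
    rw [pow_two] at hr
    omega
  have h4 : n ≤ B ^ 4 := by
    have h1 : n ≤ (B + 1) ^ 2 := by rw [hn]; nlinarith
    have h2 : B + 1 ≤ B ^ 2 := by nlinarith
    calc n ≤ (B + 1) ^ 2 := h1
      _ ≤ (B ^ 2) ^ 2 := Nat.pow_le_pow_left h2 2
      _ = B ^ 4 := by ring
  refine ⟨?_, ?_, hkB, htB, ?_, ?_, ?_⟩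
  · calc n ^ (k + 1) ≤ (B ^ 4) ^ (k + 1) := Nat.pow_le_pow_left h4 _
      _ = B ^ (4 * (k + 1)) := by rw [← pow_mul]
      _ < B ^ L := Nat.pow_lt_pow_right (by omega) (by omega)
  · calc n ≤ B ^ 4 := h4
      _ < B ^ L := Nat.pow_lt_pow_right (by omega) (by omega)
  · have h1 : 1 ≤ B ^ L := Nat.one_le_pow _ _ (by omega)
    have h2 : B ^ L - 1 + 2 ≤ B ^ (L + 1) := by
      rw [pow_succ]
      have : B ^ L * 2 ≤ B ^ L * B := Nat.mul_le_mul_left _ (by omega)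
      omega
    calc (B ^ L - 1 + 2) ^ e ≤ (B ^ (L + 1)) ^ e := Nat.pow_le_pow_left h2 _
      _ = B ^ ((L + 1) * e) := by rw [← pow_mul]
      _ ≤ B ^ M := by
        apply Nat.pow_le_pow_right (by omega)
        rw [← hM]
        nlinarith
  · rw [← hM]; nlinarith
  · rw [← hM]; nlinarith

lemma Dp_iff {P : Pd 2 4} {e : ℕ} (hs : EvUV P e) {n b B k t L M : ℕ}
    (hn : n = B * B + ((k + t) ^ 2 + k) + 1) (hr : (k + t) ^ 2 + k < 2 * B + 1)
    (hL : 4 * (k + 2) = L) (hM : (e + 1) * (L + 1) = M) (hU : (M + 1) * M < B)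
    (he : e + 3 < B) (hb : (M + 1) * M ≤ b) (v : Fin 0 → Fin n) (V : Fin 0 → Finset (Fin n)) :
    Dp P e n b v V ↔ ¬ (![n ^ (k + 1), n, k, t] : Fin 4 → ℕ) ∈ UV := by
  have hBB : 4 * B ≤ B * B := Nat.mul_le_mul_right _ (by omega)
  obtain ⟨q1, q2, q3, q4, q5, q6, q7⟩ := bounds (e := e) hn hr hL hM (by omega)
  have hMM : M ≤ (M + 1) * M := by nlinarith
  have hUB : (M + 1) * M * B < n := by
    have : (M + 1) * M * B ≤ B * B := Nat.mul_le_mul_right _ hU.le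
    omega
  have hLM : B ^ L ≤ B ^ M := Nat.pow_le_pow_right (by omega) q6.le
  have ctx : Ctx n b B M := ⟨by omega, by omega, hb, hUB.le⟩
  constructor
  · rintro ⟨B', M', k', t', m0, L', a0, a1, U', c1, c2, ⟨c3, c3'⟩, c4, c5, c6, ⟨_, c7⟩, c8,
      ⟨c9, c9'⟩, c10, c11, ⟨X, hX, hXU⟩, hneg⟩ hUV
    have hm0 : (m0 : ℕ) = B * B + ((k + t) ^ 2 + k) := by
      have h1 := c1 ⟨n - 1, by omega⟩
      have h2 := m0.is_lt
      simp only at h1
      omega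
    rw [hm0] at c2
    obtain ⟨hB', hr'⟩ := sq_unique c2 c3 hr
    obtain ⟨hk', ht'⟩ := pr2_inj (x := (k' : ℕ)) (y := (t' : ℕ)) (x' := k) (y' := t) hr'
    rw [hk', hL] at c4
    rw [← c4, hM] at c5
    rw [← c4, ← c5, hB', hk', ht'] at hneg
    rw [hk', ht'] at c9
    rw [hB'] at c9 c10 c11
    apply hneg
    obtain ⟨Y, y1, y2⟩ := ex_code t_exCd ctx (x := n ^ (k + 1)) (by omega)
    obtain ⟨N, n1, n2⟩ := ex_code t_exCd ctx (x := n) (by omega)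
    obtain ⟨K, k1, k2⟩ := ex_code t_exCd ctx (x := k) (by omega)
    obtain ⟨T, t1, t2⟩ := ex_code t_exCd ctx (x := t) (by omega)
    refine ⟨Y, y1, N, n1, K, k1, T, t1, (t_num n B M 0 Y (by omega)).2 ⟨_, y2⟩,
      (t_num n B M 0 N (by omega)).2 ⟨_, n2⟩, (t_num n B M 0 K (by omega)).2 ⟨_, k2⟩,
      (t_num n B M 0 T (by omega)).2 ⟨_, t2⟩, ?_, ?_, ?_, ?_, ?_⟩
    · intro i hi hiL
      have h1 := (y2.2 i hi 0 (by omega)).2 (dg_eq_zero q1 (by omega) (by omega))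
      rw [zero_add] at h1
      exact h1
    · rw [dig3_iff q7 c10 c11 (by omega) n2, one_mul]
      omega
    · rw [dig3_iff q7 q3 (by omega) (by omega) k2]
      omega
    · rw [dig3_iff q7 q4 (by omega) (by omega) t2]
      omega
    · refine (hs n b ![B', M'] B M hB' c5.symm (by omega) (by omega) (by omega) hb hUB.le
        ![Y, N, K, T] ![n ^ (k + 1), n, k, t] ?_ (B ^ L - 1) ?_ q5).2 hUV
      · intro i
        fin_cases i
        · exact y2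
        · exact n2
        · exact k2
        · exact t2
      · intro i
        fin_cases i
        · show n ^ (k + 1) ≤ _
          omega
        · show n ≤ _
          omega
        · show k ≤ _
          omega
        · show t ≤ _
          omega
  · intro hUV
    obtain ⟨r, hrr⟩ : ∃ r, r = (k + t) ^ 2 + k := ⟨_, rfl⟩
    have ha := Nat.div_add_mod (r + 1) B
    have ha0 : (r + 1) % B < B := Nat.mod_lt _ (by omega)
    have ha1 : (r + 1) / B < B := by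
      rw [Nat.div_lt_iff_lt_mul (by omega)]
      omega
    have hL4 : L < B := by omega
    refine ⟨⟨B, by omega⟩, ⟨M, by omega⟩, ⟨k, by omega⟩, ⟨t, by omega⟩, ⟨n - 1, by omega⟩,
      ⟨L, by omega⟩, ⟨(r + 1) % B, by omega⟩, ⟨(r + 1) / B, by omega⟩,
      ⟨(M + 1) * M, by omega⟩, ?_, ?_, ⟨?_, ?_⟩, hL, hM, rfl, ⟨rfl, hUB⟩, he, ⟨?_, ?_⟩, ha0, ha1,
      ?_, ?_⟩
    · intro x
      have := x.is_lt
      show ¬ (n - 1 < (x : ℕ))
      omega
    · show B * B + ((k + t) ^ 2 + k) = n - 1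
      omega
    · exact hr
    · show 2 * B + 1 < n
      omega
    · show (r + 1) / B * B + (r + 1) % B = (k + t) ^ 2 + k + 1
      rw [← hrr, mul_comm]
      exact ha
    · show (k + t) ^ 2 + k + 1 < n
      omega
    · obtain ⟨X, h1, h2⟩ := ex_initial (n := n) (U := (M + 1) * M) (by omega)
      exact ⟨X, h1.trans hb, h2⟩
    · rintro ⟨Y, _, N, _, K, _, T, _, nY, nN, nK, nT, hYz, dN, dK, dT, hP⟩
      simp only at nY nN nK nT hYz dN dK dT hP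
      obtain ⟨y, y2⟩ := (t_num n B M 0 Y (by omega)).1 nY
      obtain ⟨n', n2⟩ := (t_num n B M 0 N (by omega)).1 nN
      obtain ⟨k', k2⟩ := (t_num n B M 0 K (by omega)).1 nK
      obtain ⟨t', t2⟩ := (t_num n B M 0 T (by omega)).1 nT
      rw [dig3_iff q7 ha0 ha1 (by omega) n2] at dN
      rw [dig3_iff q7 q3 (by omega) (by omega) k2] at dK
      rw [dig3_iff q7 q4 (by omega) (by omega) t2] at dT
      have hy : y < B ^ L := by
        refine lt_of_top_zero (by omega) y2.1 q6.le (fun l hl hLl => ?_)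
        have h1 := hYz l hl (by omega)
        have h2 := (y2.2 l hl 0 (by omega)).1 (by rw [zero_add]; exact h1)
        exact h2
      have hn' : n' = n := by
        rw [dN, hn, ← hrr]
        nlinarith
      have hk' : k' = k := by omega
      have ht' : t' = t := by omega
      rw [hn'] at n2
      rw [hk'] at k2
      rw [ht'] at t2
      have h3 := (hs n b ![⟨B, by omega⟩, ⟨M, by omega⟩] B M rfl rfl (by omega) (by omega)
        (by omega) hb hUB.le ![Y, N, K, T] ![y, n, k, t] (by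
          intro i
          fin_cases i
          · exact y2
          · exact n2
          · exact k2
          · exact t2) (B ^ L - 1) (by
          intro i
          fin_cases i
          · show y ≤ _
            omega
          · show n ≤ _
            omega
          · show k ≤ _
            omega
          · show t ≤ _
            omega) q5).1 hP
      apply hUV
      have h4 : y = n ^ (k + 1) := h3.1
      rw [← h4]
      exact h3

/-- T6, one sentence for all `s` -/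
theorem diag_unif (hT : StmtTrans) (hQ : ∀ A, IsSpectrum A → IsRudimentary A) :
    ∃ φ : SFm ArL 0 0, ∀ s : ℕ → ℕ, Monotone s → (∀ b, ∃ n, b ≤ s n) →
      ¬ IsRudimentary (arithS s φ) := by
  obtain ⟨e, P, hP, hPs⟩ := hT 4 UV (rud_UV hQ)
  have hPs' : EvUV P e := hPs
  obtain ⟨φ, hφ⟩ := NS_Dp hP e
  refine ⟨φ, fun s hs hu hD => ?_⟩
  have hD0 : 0 ∉ arithS s φ := fun h => by have := h.1; omega
  obtain ⟨k, Θ, hΘ⟩ := spectrum_blocks (hD.isSpectrum hD0)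
  obtain ⟨t, rfl⟩ := exists_blk Θ
  obtain ⟨L, hL⟩ : ∃ L, 4 * (k + 2) = L := ⟨_, rfl⟩
  obtain ⟨M, hM⟩ : ∃ M, (e + 1) * (L + 1) = M := ⟨_, rfl⟩
  obtain ⟨n₀, hn₀⟩ := hu ((M + 1) * M)
  obtain ⟨B, hB⟩ : ∃ B, B = n₀ + (M + 1) * M + (k + t) ^ 2 + k + e + 4 := ⟨_, rfl⟩
  obtain ⟨n, hn⟩ : ∃ n, n = B * B + ((k + t) ^ 2 + k) + 1 := ⟨_, rfl⟩
  have hBn : B ≤ n := by
    have : B * 1 ≤ B * B := Nat.mul_le_mul_left _ (by omega)
    omega
  have hb : (M + 1) * M ≤ s n := hn₀.trans (hs (by omega))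
  have h1 := Dp_iff hPs' hn (by omega) hL hM (by omega) (by omega) hb Fin.elim0 Fin.elim0
  have h2 := hΘ n (by omega)
  have h3 : n ∈ arithS s φ ↔ ¬ (![n ^ (k + 1), n, k, t] : Fin 4 → ℕ) ∈ UV := by
    rw [← h1, ← hφ]
    exact ⟨fun h => h.2, fun h => ⟨by omega, h⟩⟩
  have h4 : (![n ^ (k + 1), n, k, t] : Fin 4 → ℕ) ∈ UV ↔ n ^ (k + 1) ∈ squareSizes (blk t) := by
    rw [← mem_univSizes]
    exact ⟨fun h => h.2, fun h => ⟨rfl, h⟩⟩
  rw [h3, h4] at h2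
  tauto

/-- T6 -/
theorem diag (hT : StmtTrans) : StmtDiag := by
  intro s hs hu hQ
  obtain ⟨φ, hφ⟩ := diag_unif hT hQ
  exact ⟨arithS s φ, ⟨φ, rfl⟩, hφ s hs hu⟩

end Pool.Agent.Helper14.SS
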