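import Pool.Agent.Helper14.SS.Defs
import Pool.Agent.Helper20.Spectra.RudTools

/-!
# Closure properties of definability with small sets
-/

set_option autoImplicit false

namespace Pool.Agent.Helper14.SS

open FirstOrder FirstOrder.Language Pool.Agent.Helper20.Spectra

lemma SFm.relabel {L : FirstOrder.Language.{0, 0}} {k m : ℕ} (φ : SFm L k m) :
    ∀ {k' m' : ℕ} (g : Fin k → Fin k') (h : Fin m → Fin m'), ∃ ψ : SFm L k' m',
      ∀ (M : Type) (T : L.Structure M) (b : ℕ) (v : Fin k' → M) (V : Fin m' → Finset M),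
        @SFm.Holds L M T b k' m' ψ v V ↔ @SFm.Holds L M T b k m φ (v ∘ g) (V ∘ h) := by
  induction φ with
  | fo φ =>
    intro k' m' g h
    exact ⟨.fo (φ.relabel g), fun M T b v V => Formula.realize_relabel⟩
  | mem i j =>
    intro k' m' g h
    exact ⟨.mem (g i) (h j), fun _ _ _ _ _ => Iff.rfl⟩
  | not φ ih =>
    intro k' m' g h
    obtain ⟨ψ, hψ⟩ := ih g h
    exact ⟨.not ψ, fun M T b v V => not_congr (hψ M T b v V)⟩
  | and φ φ' ih ih' =>
    intro k' m' g h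
    obtain ⟨ψ, hψ⟩ := ih g h
    obtain ⟨ψ', hψ'⟩ := ih' g h
    exact ⟨.and ψ ψ', fun M T b v V => and_congr (hψ M T b v V) (hψ' M T b v V)⟩
  | ex φ ih =>
    intro k' m' g h
    obtain ⟨ψ, hψ⟩ := ih (Fin.cons 0 (fun i => (g i).succ)) h
    refine ⟨.ex ψ, fun M T b v V => ?_⟩
    apply exists_congr
    intro x
    rw [hψ]
    have e : ((Fin.cons x v : Fin (_ + 1) → M) ∘ (Fin.cons 0 (fun i => (g i).succ) :
        Fin (_ + 1) → Fin (k' + 1))) = Fin.cons x (v ∘ g) := by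
      funext i
      refine Fin.cases ?_ (fun i => ?_) i <;> rfl
    rw [e]
  | exSet φ ih =>
    intro k' m' g h
    obtain ⟨ψ, hψ⟩ := ih g (Fin.cons 0 (fun i => (h i).succ))
    refine ⟨.exSet ψ, fun M T b v V => ?_⟩
    apply exists_congr
    intro X
    rw [hψ]
    have e : ((Fin.cons X V : Fin (_ + 1) → Finset M) ∘ (Fin.cons 0 (fun i => (h i).succ) :
        Fin (_ + 1) → Fin (m' + 1))) = Fin.cons X (V ∘ h) := by
      funext i
      refine Fin.cases ?_ (fun i => ?_) i <;> rfl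
    rw [e]

/-- values of elements -/
def vn {k n : ℕ} (v : Fin k → Fin n) : Fin k → ℕ := fun i => (v i : ℕ)

namespace NS

variable {k m : ℕ}

lemma congr {P Q : Pd k m} (h : NS k m P) (hPQ : ∀ n b v V, Q n b v V ↔ P n b v V) :
    NS k m Q := by
  obtain ⟨φ, hφ⟩ := h
  exact ⟨φ, fun n b v V => (hφ n b v V).trans (hPQ n b v V).symm⟩

lemma not {P : Pd k m} (h : NS k m P) : NS k m (fun n b v V => ¬ P n b v V) := by
  obtain ⟨φ, hφ⟩ := h
  exact ⟨.not φ, fun n b v V => not_congr (hφ n b v V)⟩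

lemma and {P Q : Pd k m} (h : NS k m P) (h' : NS k m Q) :
    NS k m (fun n b v V => P n b v V ∧ Q n b v V) := by
  obtain ⟨φ, hφ⟩ := h
  obtain ⟨ψ, hψ⟩ := h'
  exact ⟨.and φ ψ, fun n b v V => and_congr (hφ n b v V) (hψ n b v V)⟩

lemma or {P Q : Pd k m} (h : NS k m P) (h' : NS k m Q) :
    NS k m (fun n b v V => P n b v V ∨ Q n b v V) :=
  (h.not.and h'.not).not.congr (fun n b v V => by tauto)

lemma imp {P Q : Pd k m} (h : NS k m P) (h' : NS k m Q) :
    NS k m (fun n b v V => P n b v V → Q n b v V) :=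
  (h.not.or h').congr (fun n b v V => by tauto)

lemma iff {P Q : Pd k m} (h : NS k m P) (h' : NS k m Q) :
    NS k m (fun n b v V => (P n b v V ↔ Q n b v V)) :=
  ((h.imp h').and (h'.imp h)).congr (fun n b v V => by tauto)

lemma mem (i : Fin k) (j : Fin m) : NS k m (fun _ _ v V => v i ∈ V j) :=
  ⟨.mem i j, fun _ _ _ _ => Iff.rfl⟩

lemma ofFD {P : ∀ (M : Type), Interp Bool (fun _ => 3) M → (Fin k → M) → Prop}
    (h : FD Bool (fun _ => 3) (Fin k) P) : NS k m (fun n _ v _ => P (Fin n) (arI n) v) := by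
  obtain ⟨φ, hφ⟩ := h
  exact ⟨.fo φ, fun n b v V => hφ (Fin n) (arI n) v⟩

lemma add (i j l : Fin k) : NS k m (fun _ _ v _ => (v i : ℕ) + (v j : ℕ) = (v l : ℕ)) :=
  (ofFD (m := m) (FD.rel (ar := fun _ : Bool => 3) true (α := Fin k)
    (f := fun _ v => v ∘ ![i, j, l]) ⟨![i, j, l], fun _ _ => rfl⟩)).congr
    (fun _ _ _ _ => Iff.rfl)

lemma mul (i j l : Fin k) : NS k m (fun _ _ v _ => (v i : ℕ) * (v j : ℕ) = (v l : ℕ)) :=
  (ofFD (m := m) (FD.rel (ar := fun _ : Bool => 3) false (α := Fin k)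
    (f := fun _ v => v ∘ ![i, j, l]) ⟨![i, j, l], fun _ _ => rfl⟩)).congr
    (fun _ _ _ _ => Iff.rfl)

lemma eq (i j : Fin k) : NS k m (fun _ _ v _ => v i = v j) :=
  ofFD (m := m) (FD.eq (El.var i) (El.var j))

lemma const (p : Prop) : NS k m (fun _ _ _ _ => p) :=
  ofFD (m := m) (FD.const (α := Fin k) p)

lemma sub {P : Pd k m} (h : NS k m P) {k' m' : ℕ} (g : Fin k → Fin k') (f : Fin m → Fin m') :
    NS k' m' (fun n b v V => P n b (v ∘ g) (V ∘ f)) := by
  obtain ⟨φ, hφ⟩ := h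
  obtain ⟨ψ, hψ⟩ := φ.relabel g f
  exact ⟨ψ, fun n b v V => (hψ (Fin n) (mkS (arI n)) b v V).trans (hφ n b _ _)⟩

lemma ex {P : ∀ n _ : ℕ, (Fin k → Fin n) → (Fin m → Finset (Fin n)) → Fin n → Prop}
    (h : NS (k + 1) m (fun n b w V => P n b (Fin.tail w) V (w 0))) :
    NS k m (fun n b v V => ∃ x, P n b v V x) := by
  obtain ⟨φ, hφ⟩ := h
  exact ⟨.ex φ, fun n b v V => exists_congr (fun x => hφ n b (Fin.cons x v) V)⟩

lemma all {P : ∀ n _ : ℕ, (Fin k → Fin n) → (Fin m → Finset (Fin n)) → Fin n → Prop}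
    (h : NS (k + 1) m (fun n b w V => P n b (Fin.tail w) V (w 0))) :
    NS k m (fun n b v V => ∀ x, P n b v V x) :=
  (ex (P := fun n b v V x => ¬ P n b v V x) h.not).not.congr
    (fun n b v V => by simp only [not_exists, not_not])

lemma exS {P : ∀ n _ : ℕ, (Fin k → Fin n) → (Fin m → Finset (Fin n)) → Finset (Fin n) → Prop}
    (h : NS k (m + 1) (fun n b v W => P n b v (Fin.tail W) (W 0))) :
    NS k m (fun n b v V => ∃ X : Finset (Fin n), X.card ≤ b ∧ P n b v V X) := by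
  obtain ⟨φ, hφ⟩ := h
  exact ⟨.exSet φ, fun n b v V => exists_congr
    (fun X => and_congr Iff.rfl (hφ n b v (Fin.cons X V)))⟩

lemma zero (i : Fin k) : NS k m (fun _ _ v _ => (v i : ℕ) = 0) :=
  (add (m := m) i i i).congr (fun n b v V => by omega)

lemma one (i : Fin k) : NS k m (fun _ _ v _ => (v i : ℕ) = 1) :=
  ((mul (m := m) i i i).and (zero i).not).congr (fun n b v V => by
    constructor
    · intro h; rw [h]; simp
    · rintro ⟨h1, h2⟩
      have : (v i : ℕ) * (v i : ℕ) = (v i : ℕ) * 1 := by rw [h1, mul_one]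
      exact Nat.eq_of_mul_eq_mul_left (by omega) this)

lemma lt (i j : Fin k) : NS k m (fun _ _ v _ => (v i : ℕ) < (v j : ℕ)) := by
  have h1 : NS k m (fun n _ v _ => ∃ x : Fin n, (v i : ℕ) + (x : ℕ) = (v j : ℕ) ∧
      ¬ (x : ℕ) = 0) :=
    ex ((add (k := k + 1) i.succ 0 j.succ).and (zero 0).not)
  refine h1.congr (fun n b v V => ?_)
  constructor
  · intro h
    have := (v j).is_lt
    refine ⟨⟨(v j : ℕ) - (v i : ℕ), by omega⟩, ?_, ?_⟩
    · show (v i : ℕ) + ((v j : ℕ) - (v i : ℕ)) = _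
      omega
    · show ¬ ((v j : ℕ) - (v i : ℕ)) = 0
      omega
  · rintro ⟨x, h1, h2⟩
    omega

/-- values of polynomials -/
lemma poly0 (p : MvPolynomial (Fin k) ℕ) :
    NS (k + 1) m (fun _ _ w _ => MvPolynomial.eval (vn (Fin.tail w)) p = (w 0 : ℕ)) := by
  induction p using MvPolynomial.induction_on with
  | C c =>
    have h : ∀ k : ℕ, NS (k + 1) m (fun _ _ w _ => c = (w 0 : ℕ)) := by
      induction c with
      | zero => exact fun k => (zero (k := k + 1) (m := m) 0).congr (fun n b v V => by omega)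
      | succ c ih =>
        intro k
        have h1 : NS (k + 1) m (fun n _ w _ => ∃ x : Fin n, ∃ y : Fin n,
            c = (y : ℕ) ∧ (x : ℕ) = 1 ∧ (x : ℕ) + (y : ℕ) = (w 0 : ℕ)) := by
          refine ex (ex ((ih (k + 2)).and ((one (k := k + 3) 1).and (add (k := k + 3) 1 0 2))))
        refine h1.congr (fun n b v V => ?_)
        constructor
        · intro h
          have := (v 0).is_lt
          exact ⟨⟨1, by omega⟩, ⟨c, by omega⟩, rfl, rfl, by simp; omega⟩
        · rintro ⟨x, y, h1, h2, h3⟩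
          omega
    exact (h k).congr (fun n b v V => by rw [MvPolynomial.eval_C])
  | add p q ihp ihq =>
    have h1 : NS (k + 1) m (fun n _ w _ => ∃ x : Fin n, ∃ y : Fin n,
        MvPolynomial.eval (vn (Fin.tail w)) p = (x : ℕ) ∧
        MvPolynomial.eval (vn (Fin.tail w)) q = (y : ℕ) ∧ (x : ℕ) + (y : ℕ) = (w 0 : ℕ)) := by
      refine ex (ex (NS.and ?_ (NS.and ?_ (add (k := k + 3) 1 0 2))))
      · refine (ihp.sub (m' := m) (Fin.cons 1 (fun i => i.succ.succ.succ) :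
          Fin (k + 1) → Fin (k + 3)) id).congr (fun n b v V => Iff.rfl)
      · refine (ihq.sub (m' := m) (Fin.cons 0 (fun i => i.succ.succ.succ) :
          Fin (k + 1) → Fin (k + 3)) id).congr (fun n b v V => Iff.rfl)
    refine h1.congr (fun n b v V => ?_)
    rw [map_add]
    constructor
    · intro h
      have := (v 0).is_lt
      exact ⟨⟨MvPolynomial.eval (vn (Fin.tail v)) p, by omega⟩,
        ⟨MvPolynomial.eval (vn (Fin.tail v)) q, by omega⟩, rfl, rfl, h⟩
    · rintro ⟨x, y, h1, h2, h3⟩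
      rw [h1, h2, h3]
  | mul_X p i ihp =>
    have h1 : NS (k + 1) m (fun n _ w _ => ((w i.succ : ℕ) = 0 ∧ (w 0 : ℕ) = 0) ∨ ∃ x : Fin n,
        MvPolynomial.eval (vn (Fin.tail w)) p = (x : ℕ) ∧
        (x : ℕ) * (w i.succ : ℕ) = (w 0 : ℕ)) := by
      refine ((zero _).and (zero _)).or (ex (NS.and ?_ (mul (k := k + 2) 0 i.succ.succ 1)))
      refine (ihp.sub (m' := m) (Fin.cons 0 (fun i => i.succ.succ) :
          Fin (k + 1) → Fin (k + 2)) id).congr (fun n b v V => Iff.rfl)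
    refine h1.congr (fun n b v V => ?_)
    rw [map_mul, MvPolynomial.eval_X]
    have e : vn (Fin.tail v) i = (v i.succ : ℕ) := rfl
    rw [e]
    constructor
    · intro h
      have h0 := (v 0).is_lt
      rcases Nat.eq_zero_or_pos (v i.succ : ℕ) with h2 | h2
      · left
        rw [h2, mul_zero] at h
        exact ⟨h2, h.symm⟩
      · right
        have h3 : MvPolynomial.eval (vn (Fin.tail v)) p ≤ (v 0 : ℕ) := by
          rw [← h]
          exact Nat.le_mul_of_pos_right _ h2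
        exact ⟨⟨MvPolynomial.eval (vn (Fin.tail v)) p, by omega⟩, rfl, h⟩
    · rintro (⟨h2, h3⟩ | ⟨x, h2, h3⟩)
      · rw [h2, h3, mul_zero]
      · rw [h2, h3]

variable {s t : (Fin k → ℕ) → ℕ}

lemma poly (ht : IsPoly k t) : NS (k + 1) m (fun _ _ w _ => t (vn (Fin.tail w)) = (w 0 : ℕ)) := by
  obtain ⟨p, hp⟩ := ht
  exact (poly0 p).congr (fun n b v V => by rw [hp])

lemma val (ht : IsPoly k t) (i : Fin k) : NS k m (fun _ _ v _ => t (vn v) = (v i : ℕ)) :=
  ((poly (m := m) ht).sub (Fin.cons i id : Fin (k + 1) → Fin k) id).congr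
    (fun n b v V => Iff.rfl)

/-- the value of the polynomial belongs to the set -/
lemma inV (ht : IsPoly k t) (j : Fin m) : NS k m (fun _ _ v V => inV (V j) (t (vn v))) := by
  have h1 : NS k m (fun n _ v V => ∃ x : Fin n, x ∈ V j ∧ t (vn v) = (x : ℕ)) :=
    ex ((mem (k := k + 1) 0 j).and (poly ht))
  refine h1.congr (fun n b v V => ?_)
  constructor
  · rintro ⟨x, h2, h3⟩
    exact ⟨x, h2, h3.symm⟩
  · rintro ⟨x, h2, h3⟩
    exact ⟨x, h2, h3.symm⟩

lemma peq (hs : IsPoly k s) (ht : IsPoly k t) :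
    NS k m (fun n _ v _ => s (vn v) = t (vn v) ∧ t (vn v) < n) := by
  have h1 : NS k m (fun n _ v _ => ∃ x : Fin n, s (vn v) = (x : ℕ) ∧ t (vn v) = (x : ℕ)) :=
    ex ((poly hs).and (poly ht))
  refine h1.congr (fun n b v V => ?_)
  constructor
  · rintro ⟨h2, h3⟩
    exact ⟨⟨t (vn v), h3⟩, h2, rfl⟩
  · rintro ⟨x, h2, h3⟩
    exact ⟨h2.trans h3.symm, by have := x.is_lt; omega⟩

lemma plt (hs : IsPoly k s) (ht : IsPoly k t) :
    NS k m (fun n _ v _ => s (vn v) < t (vn v) ∧ t (vn v) < n) := by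
  have h1 : NS k m (fun n _ v _ => ∃ x : Fin n, s (vn v) = (x : ℕ) ∧ ∃ y : Fin n,
      t (vn v) = (y : ℕ) ∧ (x : ℕ) < (y : ℕ)) :=
    ex ((poly hs).and (ex ((poly ht.tail).and (lt (k := k + 2) 1 0))))
  refine h1.congr (fun n b v V => ?_)
  constructor
  · rintro ⟨h2, h3⟩
    exact ⟨⟨s (vn v), h2.trans h3⟩, rfl, ⟨t (vn v), h3⟩, rfl, h2⟩
  · rintro ⟨x, h2, y, h3, h4⟩
    have := y.is_lt
    omega

/-- comparison with an element -/
lemma ltv (hs : IsPoly k s) (i : Fin k) : NS k m (fun _ _ v _ => s (vn v) < (v i : ℕ)) :=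
  (plt (m := m) hs (IsPoly.var i)).congr (fun n b v V => by
    show s (vn v) < (v i : ℕ) ↔ s (vn v) < (v i : ℕ) ∧ (v i : ℕ) < n
    exact ⟨fun h => ⟨h, (v i).is_lt⟩, fun h => h.1⟩)

/-- bounded existential quantifier -/
lemma exlt (i : Fin k)
    {P : ∀ n _ : ℕ, (Fin k → Fin n) → (Fin m → Finset (Fin n)) → ℕ → Prop}
    (h : NS (k + 1) m (fun n b w V => P n b (Fin.tail w) V (w 0 : ℕ))) :
    NS k m (fun n b v V => ∃ d, d < (v i : ℕ) ∧ P n b v V d) := by
  have h1 : NS k m (fun n b v V => ∃ x : Fin n, (x : ℕ) < (v i : ℕ) ∧ P n b v V (x : ℕ)) :=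
    ex ((lt (k := k + 1) 0 i.succ).and h)
  refine h1.congr (fun n b v V => ?_)
  constructor
  · rintro ⟨d, h2, h3⟩
    have := (v i).is_lt
    exact ⟨⟨d, by omega⟩, h2, h3⟩
  · rintro ⟨x, h2, h3⟩
    exact ⟨x, h2, h3⟩

/-- bounded universal quantifier -/
lemma alllt (i : Fin k)
    {P : ∀ n _ : ℕ, (Fin k → Fin n) → (Fin m → Finset (Fin n)) → ℕ → Prop}
    (h : NS (k + 1) m (fun n b w V => P n b (Fin.tail w) V (w 0 : ℕ))) :
    NS k m (fun n b v V => ∀ d, d < (v i : ℕ) → P n b v V d) :=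
  (exlt i (P := fun n b v V d => ¬ P n b v V d) h.not).not.congr
    (fun n b v V => by simp only [not_exists, not_and, not_not])

end NS

end Pool.Agent.Helper14.SS
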