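import Pool.Agent.Helper14.SS.Syn
import Pool.Agent.Helper14.SS.Stub

/-!
# Bounded formulas on numbers coded by small sets
-/

set_option autoImplicit false

namespace Pool.Agent.Helper14.SS

open FirstOrder Pool.Agent.Helper20.Spectra

lemma pc {k : ℕ} (n : ℕ) : Pool.Agent.Helper20.Spectra.IsPoly k (fun _ => n) :=
  Pool.Agent.Helper20.Spectra.IsPoly.const n

/-- `Axpy` with a bound on the digit equation -/
def Axpy' {n : ℕ} (B M : ℕ) (X : Finset (Fin n)) (oX : ℕ) (Y : Finset (Fin n))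
    (Z : Finset (Fin n)) (oZ : ℕ) (e j : ℕ) (C : Finset (Fin n)) (oC : ℕ) : Prop :=
  (∀ l, l < M → M ≤ l + j → 1 ≤ e → inV Y (l * B + 0)) ∧
  ∀ i, i < M → ∃ x, x < B ∧ ∃ y, y < B ∧ ∃ z, z < B ∧ ∃ c, c < B ∧ ∃ c', c' < B ∧
    (inV X ((oX + i) * B + x) ∧
    (((∃ l, l < M ∧ (l + j = i ∧ inV Y (l * B + y))) ∨ (i < j ∧ y = 0)) ∧
    (inV Z ((oZ + i) * B + z) ∧ (inV C ((oC + i) * B + c) ∧ ((i = 0 → c = 0) ∧
    (((i + 1 < M ∧ inV C ((oC + i + 1) * B + c')) ∨ (i + 1 = M ∧ c' = 0)) ∧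
    (x + e * y + c = z + B * c' ∧ z + B * c' < n)))))))

lemma axpy'_iff {n B M : ℕ} {X Y Z C : Finset (Fin n)} {oX oZ e j oC : ℕ} (h : B * B ≤ n) :
    Axpy' B M X oX Y Z oZ e j C oC ↔ Axpy B M X oX Y Z oZ e j C oC := by
  have key : ∀ z c' : ℕ, z < B → c' < B → z + B * c' < n := by
    intro z c' hz hc
    have : B * (c' + 1) ≤ B * B := Nat.mul_le_mul_left _ hc
    rw [mul_add, mul_one] at this
    omega
  unfold Axpy' Axpy
  apply and_congr_right
  intro _
  apply forall_congr'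
  intro i
  apply forall_congr'
  intro hi
  constructor
  · rintro ⟨x, hx, y, hy, z, hz, c, hc, c', hc', h1, h2, h3, h4, h5, h6, h7, h8⟩
    exact ⟨x, hx, y, hy, z, hz, c, hc, c', hc', h1, h2, h3, h4, h5, h6, h7.symm⟩
  · rintro ⟨x, hx, y, hy, z, hz, c, hc, c', hc', h1, h2, h3, h4, h5, h6, h7⟩
    exact ⟨x, hx, y, hy, z, hz, c, hc, c', hc', h1, h2, h3, h4, h5, h6, h7.symm,
      key z c' hz hc'⟩

/-- addition of coded numbers -/
def AddP {n : ℕ} (b B M : ℕ) (X Y Z : Finset (Fin n)) : Prop :=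
  ∃ C : Finset (Fin n), C.card ≤ b ∧ (Num B M 0 C ∧ Axpy' B M X 0 Y Z 0 1 0 C 0)

/-- multiplication of coded numbers -/
def MulP {n : ℕ} (b B M : ℕ) (X Y Z : Finset (Fin n)) : Prop :=
  ∃ T : Finset (Fin n), T.card ≤ b ∧ ∃ C : Finset (Fin n), C.card ≤ b ∧
    ((∀ j, j < M → Num B M (j * M) T) ∧ (Num B M (M * M) T ∧ ((∀ j, j < M → Num B M (j * M) C) ∧
    ((∀ i, i < M → inV T (i * B + 0)) ∧
    ((∀ i, i < M → ∀ d, d < B → (inV T ((M * M + i) * B + d) ↔ inV Z (i * B + d))) ∧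
    ∀ j, j < M → ∃ e, e < B ∧ (inV X (j * B + e) ∧
      Axpy' B M T (j * M) Y T ((j + 1) * M) e j C (j * M)))))))

namespace NS

variable {k m : ℕ} {t : (Fin k → ℕ) → ℕ}

lemma eqn (i j : Fin k) : NS k m (fun _ _ v _ => (v i : ℕ) = (v j : ℕ)) :=
  (NS.eq (m := m) i j).congr (fun n b v V => by rw [Fin.ext_iff])

lemma pzero (i : Fin k) (ht : IsPoly k t) : NS k m (fun _ _ v _ => t (vn v) = 0) := by
  refine (peq (m := m) ht (pc 0)).congr (fun n b v V => ?_)
  have := (v i).is_lt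
  constructor
  · intro h; exact ⟨h, by omega⟩
  · intro h; exact h.1

lemma vlt (i : Fin k) (ht : IsPoly k t) : NS k m (fun _ _ v _ => (v i : ℕ) < t (vn v)) := by
  refine ((ltv (m := m) ht i).or (val ht i)).not.congr (fun n b v V => ?_)
  omega

lemma num (iB iM : Fin k) (ht : IsPoly k t) (l : Fin m) :
    NS k m (fun _ _ v V => Num (v iB : ℕ) (v iM : ℕ) (t (vn v)) (V l)) := by
  unfold Num
  refine alllt iM (exlt iB.succ (NS.and (inV (((ht.tail.tail.add (IsPoly.var 1)).mul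
    (IsPoly.var iB.succ.succ)).add (IsPoly.var 0)) l) (alllt iB.succ.succ (NS.imp
    (inV (((ht.tail.tail.tail.add (IsPoly.var 2)).mul
    (IsPoly.var iB.succ.succ.succ)).add (IsPoly.var 0)) l) (eqn 0 1)))))

variable {oX oZ te tj oC : (Fin k → ℕ) → ℕ}

lemma axpy (iB iM : Fin k) (hX : IsPoly k oX) (hZ : IsPoly k oZ) (he : IsPoly k te)
    (hj : IsPoly k tj) (hC : IsPoly k oC) (X Y Z C : Fin m) :
    NS k m (fun _ _ v V => Axpy' (v iB : ℕ) (v iM : ℕ) (V X) (oX (vn v)) (V Y) (V Z)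
      (oZ (vn v)) (te (vn v)) (tj (vn v)) (V C) (oC (vn v))) := by
  unfold Axpy'
  refine NS.and ?_ ?_
  · refine alllt iM ?_
    refine NS.imp ?_ (NS.imp ?_ (inV (((IsPoly.var 0).mul (IsPoly.var iB.succ)).add
      (pc 0)) Y))
    · exact (ltv ((IsPoly.var 0).add hj.tail) iM.succ).not.congr (fun n b v V => by
        show (v iM.succ : ℕ) ≤ _ ↔ ¬ (_ < (v iM.succ : ℕ))
        rw [not_lt]
        exact Iff.rfl)
    · exact (pzero 0 he.tail).not.congr (fun n b v V => by
        show 1 ≤ te (Fin.tail (vn v)) ↔ ¬ (te (Fin.tail (vn v)) = 0)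
        omega)
  · refine alllt iM (exlt iB.succ (exlt iB.succ.succ (exlt iB.succ.succ.succ
      (exlt iB.succ.succ.succ.succ (exlt iB.succ.succ.succ.succ.succ ?_)))))
    -- variables: c' 0, c 1, z 2, y 3, x 4, i 5
    refine NS.and (inV (((hX.tail.tail.tail.tail.tail.tail.add (IsPoly.var 5)).mul
      (IsPoly.var iB.succ.succ.succ.succ.succ.succ)).add (IsPoly.var 4)) X) ?_
    refine NS.and (NS.or (exlt iM.succ.succ.succ.succ.succ.succ (NS.and
      (val ((IsPoly.var 0).add hj.tail.tail.tail.tail.tail.tail.tail) 6)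
      (inV (((IsPoly.var 0).mul (IsPoly.var iB.succ.succ.succ.succ.succ.succ.succ)).add
        (IsPoly.var 4)) Y))) (NS.and (vlt 5 hj.tail.tail.tail.tail.tail.tail) (zero 3))) ?_
    refine NS.and (inV (((hZ.tail.tail.tail.tail.tail.tail.add (IsPoly.var 5)).mul
      (IsPoly.var iB.succ.succ.succ.succ.succ.succ)).add (IsPoly.var 2)) Z) ?_
    refine NS.and (inV (((hC.tail.tail.tail.tail.tail.tail.add (IsPoly.var 5)).mul
      (IsPoly.var iB.succ.succ.succ.succ.succ.succ)).add (IsPoly.var 1)) C) ?_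
    refine NS.and (NS.imp (zero 5) (zero 1)) ?_
    refine NS.and (NS.or (NS.and (ltv ((IsPoly.var 5).add (pc 1))
      iM.succ.succ.succ.succ.succ.succ) (inV ((((hC.tail.tail.tail.tail.tail.tail.add
      (IsPoly.var 5)).add (pc 1)).mul
      (IsPoly.var iB.succ.succ.succ.succ.succ.succ)).add (IsPoly.var 0)) C))
      (NS.and (val ((IsPoly.var 5).add (pc 1)) iM.succ.succ.succ.succ.succ.succ)
        (zero 0))) ?_
    exact peq (((IsPoly.var 4).add (he.tail.tail.tail.tail.tail.tail.mul (IsPoly.var 3))).add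
      (IsPoly.var 1)) ((IsPoly.var 2).add ((IsPoly.var iB.succ.succ.succ.succ.succ.succ).mul
        (IsPoly.var 0)))

lemma addP (iB iM : Fin k) (X Y Z : Fin m) :
    NS k m (fun _ b v V => AddP b (v iB : ℕ) (v iM : ℕ) (V X) (V Y) (V Z)) := by
  unfold AddP
  exact exS (NS.and (num iB iM (pc 0) 0)
    (axpy iB iM (pc 0) (pc 0) (pc 1) (pc 0) (pc 0) X.succ Y.succ Z.succ 0))

lemma mulP (iB iM : Fin k) (X Y Z : Fin m) :
    NS k m (fun _ b v V => MulP b (v iB : ℕ) (v iM : ℕ) (V X) (V Y) (V Z)) := by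
  unfold MulP
  refine exS (exS ?_)
  refine NS.and (alllt iM (num iB.succ iM.succ ((IsPoly.var 0).mul (IsPoly.var iM.succ)) 1)) ?_
  refine NS.and (num iB iM ((IsPoly.var iM).mul (IsPoly.var iM)) 1) ?_
  refine NS.and (alllt iM (num iB.succ iM.succ ((IsPoly.var 0).mul (IsPoly.var iM.succ)) 0)) ?_
  refine NS.and (alllt iM (inV (((IsPoly.var 0).mul (IsPoly.var iB.succ)).add (pc 0)) 1)) ?_
  refine NS.and (alllt iM (alllt iB.succ (NS.iff
    (inV (((((IsPoly.var iM.succ.succ).mul (IsPoly.var iM.succ.succ)).add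
      (IsPoly.var 1)).mul (IsPoly.var iB.succ.succ)).add (IsPoly.var 0)) 1)
    (inV (((IsPoly.var 1).mul (IsPoly.var iB.succ.succ)).add (IsPoly.var 0)) Z.succ.succ)))) ?_
  refine alllt iM (exlt iB.succ (NS.and
    (inV (((IsPoly.var 1).mul (IsPoly.var iB.succ.succ)).add (IsPoly.var 0)) X.succ.succ) ?_))
  exact axpy iB.succ.succ iM.succ.succ ((IsPoly.var 1).mul (IsPoly.var iM.succ.succ))
    (((IsPoly.var 1).add (pc 1)).mul (IsPoly.var iM.succ.succ)) (IsPoly.var 0) (IsPoly.var 1)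
    ((IsPoly.var 1).mul (IsPoly.var iM.succ.succ)) 1 Y.succ.succ 1 0

end NS

/-- admissible base `B` and length `M` -/
structure Ctx (n b B M : ℕ) : Prop where
  two : 2 ≤ B
  sq : B * B ≤ n
  card : (M + 1) * M ≤ b
  room : (M + 1) * M * B ≤ n

lemma Ctx.le {n b B M : ℕ} (h : Ctx n b B M) : M ≤ b := by
  have := h.card
  nlinarith

lemma Ctx.lt {n b B M : ℕ} (h : Ctx n b B M) : M * B ≤ n := by
  have h1 := h.room
  have h2 : M ≤ (M + 1) * M := by nlinarith
  exact (Nat.mul_le_mul_right B h2).trans h1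

lemma addP_iff (hAdd : StmtAdd) {n b B M : ℕ} (h : Ctx n b B M) {X Y Z : Finset (Fin n)}
    {x y z : ℕ} (hX : Cd B M 0 X x) (hY : Cd B M 0 Y y) (hZ : Cd B M 0 Z z) :
    AddP b B M X Y Z ↔ x + y = z := by
  rw [← hAdd n b B M X Y Z x y z h.two h.le h.lt hX hY hZ]
  unfold AddP
  simp only [axpy'_iff h.sq]

lemma mulP_iff (hMul : StmtMul) {n b B M : ℕ} (h : Ctx n b B M) {X Y Z : Finset (Fin n)}
    {x y z : ℕ} (hX : Cd B M 0 X x) (hY : Cd B M 0 Y y) (hZ : Cd B M 0 Z z) :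
    MulP b B M X Y Z ↔ x * y = z := by
  rw [← hMul n b B M X Y Z x y z h.two h.card h.room hX hY hZ]
  unfold MulP MulT
  simp only [axpy'_iff h.sq]
  apply exists_congr
  intro T
  apply and_congr_right
  intro _
  apply exists_congr
  intro C
  apply and_congr_right
  intro _
  constructor
  · rintro ⟨h1, h2, h3⟩
    refine ⟨fun j hj => ?_, h3⟩
    rcases Nat.lt_or_ge j M with h4 | h4
    · exact h1 j h4
    · have : j = M := by omega
      rw [this]
      exact h2
  · rintro ⟨h1, h3⟩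
    exact ⟨fun j hj => h1 j hj.le, h1 M le_rfl, h3⟩

/-- codes of numbers have few elements -/
lemma ex_code (hEx : StmtExCd) {n b B M : ℕ} (h : Ctx n b B M) {x : ℕ} (hx : x < B ^ M) :
    ∃ X : Finset (Fin n), X.card ≤ b ∧ Cd B M 0 X x := by
  obtain ⟨X, h1, h2⟩ := hEx n B M x (by have := h.two; omega) hx h.lt
  exact ⟨X, h1.trans h.le, h2⟩

lemma dig_ext {B : ℕ} (hB : 1 ≤ B) : ∀ {M x y : ℕ}, x < B ^ M → y < B ^ M →
    (∀ i, i < M → x / B ^ i % B = y / B ^ i % B) → x = y := by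
  intro M
  induction M with
  | zero => intro x y hx hy _; simp at hx hy; omega
  | succ M ih =>
    intro x y hx hy h
    have h0 := h 0 (by omega)
    simp only [pow_zero, Nat.div_one] at h0
    have h1 : x / B = y / B := by
      apply ih
      · exact Nat.div_lt_of_lt_mul (by rw [← pow_succ']; exact hx)
      · exact Nat.div_lt_of_lt_mul (by rw [← pow_succ']; exact hy)
      · intro i hi
        have := h (i + 1) (by omega)
        rw [pow_succ', ← Nat.div_div_eq_div_mul, ← Nat.div_div_eq_div_mul] at this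
        exact this
    rw [← Nat.div_add_mod x B, ← Nat.div_add_mod y B, h0, h1]

/-- value of a polynomial on coded numbers -/
lemma tpoly (hNum : StmtNum) (hEx : StmtExCd) (hAdd : StmtAdd) (hMul : StmtMul) {k : ℕ}
    (p : MvPolynomial (Fin k) ℕ) :
    ∃ (e : ℕ) (P : Pd 2 (k + 1)), NS 2 (k + 1) P ∧ 1 ≤ e ∧
      (∀ W (x : Fin k → ℕ), (∀ i, x i ≤ W) → MvPolynomial.eval x p + 2 ≤ (W + 2) ^ e) ∧
      ∀ (n b : ℕ) (w : Fin 2 → Fin n) (B M : ℕ), (w 0 : ℕ) = B → (w 1 : ℕ) = M → Ctx n b B M →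
        e ≤ B → ∀ (Z : Finset (Fin n)) (X : Fin k → Finset (Fin n)) (z : ℕ) (x : Fin k → ℕ),
        Cd B M 0 Z z → (∀ i, Cd B M 0 (X i) (x i)) → ∀ W, (∀ i, x i ≤ W) →
        (W + 2) ^ e ≤ B ^ M → (P n b w (Fin.cons Z X) ↔ z = MvPolynomial.eval x p) := by
  induction p using MvPolynomial.induction_on with
  | C c =>
    refine ⟨c + 2, fun n b w V => ∀ i, i < (w 1 : ℕ) →
      ((i = 0 → inV (V 0) (i * (w 0 : ℕ) + c)) ∧ (¬ i = 0 → inV (V 0) (i * (w 0 : ℕ) + 0))),
      ?_, by omega, ?_, ?_⟩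
    · refine NS.alllt 1 (NS.and (NS.imp (NS.zero 0) (NS.inV (((IsPoly.var 0).mul
        (IsPoly.var (Fin.succ 0))).add (pc c)) 0)) (NS.imp (NS.zero 0).not
        (NS.inV (((IsPoly.var 0).mul (IsPoly.var (Fin.succ 0))).add (pc 0)) 0)))
    · intro W x _
      rw [MvPolynomial.eval_C]
      calc c + 2 ≤ 2 ^ (c + 2) := (Nat.lt_two_pow_self).le
        _ ≤ (W + 2) ^ (c + 2) := Nat.pow_le_pow_left (by omega) _
    · intro n b w B M hB hM hctx he Z X z x hZ _ W _ hW
      have hB2 := hctx.two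
      have hM1 : 1 ≤ M := by
        by_contra h
        have : M = 0 := by omega
        rw [this, pow_zero] at hW
        have h2 : 2 ≤ (W + 2) ^ (c + 2) := by
          calc 2 ≤ W + 2 := by omega
            _ = (W + 2) ^ 1 := (pow_one _).symm
            _ ≤ (W + 2) ^ (c + 2) := Nat.pow_le_pow_right (by omega) (by omega)
        omega
      beta_reduce
      rw [MvPolynomial.eval_C, hB, hM]
      show (∀ i, i < M → ((i = 0 → inV Z (i * B + c)) ∧ (¬ i = 0 → inV Z (i * B + 0)))) ↔ z = c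
      have hcB : c < B := by omega
      have hdc : ∀ i, c / B ^ i % B = if i = 0 then c else 0 := by
        intro i
        by_cases hi : i = 0
        · rw [hi, if_pos rfl, pow_zero, Nat.div_one, Nat.mod_eq_of_lt hcB]
        · rw [if_neg hi, Nat.div_eq_of_lt, Nat.zero_mod]
          calc c < B := hcB
            _ = B ^ 1 := (pow_one B).symm
            _ ≤ B ^ i := Nat.pow_le_pow_right (by omega) (by omega)
      have hcM : c < B ^ M := by
        calc c < B := hcB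
          _ = B ^ 1 := (pow_one B).symm
          _ ≤ B ^ M := Nat.pow_le_pow_right (by omega) hM1
      constructor
      · intro h
        apply dig_ext (by omega) hZ.1 hcM
        intro i hi
        rw [hdc i]
        by_cases h0 : i = 0
        · rw [if_pos h0]
          have h1 := (h i hi).1 h0
          have h2 := (hZ.2 i hi c hcB).1 (by rw [zero_add]; exact h1)
          exact h2
        · rw [if_neg h0]
          have h1 := (h i hi).2 h0
          have h2 := (hZ.2 i hi 0 (by omega)).1 (by rw [zero_add]; exact h1)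
          exact h2
      · rintro rfl i hi
        refine ⟨fun h0 => ?_, fun h0 => ?_⟩
        · have h2 := (hZ.2 i hi z hcB).2 (by rw [hdc, if_pos h0])
          rw [zero_add] at h2
          exact h2
        · have h2 := (hZ.2 i hi 0 (by omega)).2 (by rw [hdc, if_neg h0])
          rw [zero_add] at h2
          exact h2
  | add p q ihp ihq =>
    obtain ⟨e1, P1, hP1, he1, hb1, h1⟩ := ihp
    obtain ⟨e2, P2, hP2, he2, hb2, h2⟩ := ihq
    refine ⟨max e1 e2 + 1, fun n b w V => ∃ Z1 : Finset (Fin n), Z1.card ≤ b ∧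
      ∃ Z2 : Finset (Fin n), Z2.card ≤ b ∧ (Num (w 0 : ℕ) (w 1 : ℕ) 0 Z1 ∧
      (Num (w 0 : ℕ) (w 1 : ℕ) 0 Z2 ∧ (P1 n b w (Fin.cons Z1 (Fin.tail V)) ∧
      (P2 n b w (Fin.cons Z2 (Fin.tail V)) ∧ AddP b (w 0 : ℕ) (w 1 : ℕ) Z1 Z2 (V 0))))),
      ?_, by omega, ?_, ?_⟩
    · refine NS.exS (NS.exS (NS.and (NS.num 0 1 (pc 0) 1) (NS.and (NS.num 0 1 (pc 0) 0)
        (NS.and ?_ (NS.and ?_ (NS.addP 0 1 1 0 2))))))
      · refine (hP1.sub id (Fin.cons 1 (fun i => i.succ.succ.succ) :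
          Fin (k + 1) → Fin (k + 3))).congr (fun n b v V => ?_)
        refine Iff.of_eq (congrArg _ ?_)
        funext i
        refine Fin.cases ?_ (fun i => ?_) i <;> rfl
      · refine (hP2.sub id (Fin.cons 0 (fun i => i.succ.succ.succ) :
          Fin (k + 1) → Fin (k + 3))).congr (fun n b v V => ?_)
        refine Iff.of_eq (congrArg _ ?_)
        funext i
        refine Fin.cases ?_ (fun i => ?_) i <;> rfl
    · intro W x hx
      have a1 := hb1 W x hx
      have a2 := hb2 W x hx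
      rw [map_add]
      have b1 : (W + 2) ^ e1 ≤ (W + 2) ^ max e1 e2 := Nat.pow_le_pow_right (by omega) (by omega)
      have b2 : (W + 2) ^ e2 ≤ (W + 2) ^ max e1 e2 := Nat.pow_le_pow_right (by omega) (by omega)
      have b3 : (W + 2) ^ max e1 e2 * 2 ≤ (W + 2) ^ max e1 e2 * (W + 2) :=
        Nat.mul_le_mul_left _ (by omega)
      rw [pow_succ]
      omega
    · intro n b w B M hB hM hctx he Z X z x hZ hX W hxW hW
      have hB1 : 1 ≤ B := by have := hctx.two; omega
      have c1 : (W + 2) ^ e1 ≤ B ^ M :=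
        (Nat.pow_le_pow_right (by omega) (by omega)).trans hW
      have c2 : (W + 2) ^ e2 ≤ B ^ M :=
        (Nat.pow_le_pow_right (by omega) (by omega)).trans hW
      have g1 := fun Z1 z1 (hz1 : Cd B M 0 Z1 z1) =>
        h1 n b w B M hB hM hctx (by omega) Z1 X z1 x hz1 hX W hxW c1
      have g2 := fun Z1 z1 (hz1 : Cd B M 0 Z1 z1) =>
        h2 n b w B M hB hM hctx (by omega) Z1 X z1 x hz1 hX W hxW c2
      rw [map_add]
      simp only [Fin.tail_cons, Fin.cons_zero, hB, hM]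
      constructor
      · rintro ⟨Z1, _, Z2, _, n1, n2, p1, p2, p3⟩
        obtain ⟨z1, hz1⟩ := (hNum n B M 0 Z1 hB1).1 n1
        obtain ⟨z2, hz2⟩ := (hNum n B M 0 Z2 hB1).1 n2
        rw [g1 Z1 z1 hz1] at p1
        rw [g2 Z2 z2 hz2] at p2
        rw [addP_iff hAdd hctx hz1 hz2 hZ] at p3
        rw [← p1, ← p2, p3]
      · intro h
        have a1 := hb1 W x hxW
        have a2 := hb2 W x hxW
        obtain ⟨Z1, k1, hz1⟩ := ex_code hEx hctx (x := MvPolynomial.eval x p) (by omega)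
        obtain ⟨Z2, k2, hz2⟩ := ex_code hEx hctx (x := MvPolynomial.eval x q) (by omega)
        exact ⟨Z1, k1, Z2, k2, (hNum n B M 0 Z1 hB1).2 ⟨_, hz1⟩,
          (hNum n B M 0 Z2 hB1).2 ⟨_, hz2⟩, (g1 Z1 _ hz1).2 rfl, (g2 Z2 _ hz2).2 rfl,
          (addP_iff hAdd hctx hz1 hz2 hZ).2 h.symm⟩
  | mul_X p i ihp =>
    obtain ⟨e1, P1, hP1, he1, hb1, h1⟩ := ihp
    refine ⟨e1 + 1, fun n b w V => ∃ Z1 : Finset (Fin n), Z1.card ≤ b ∧
      (Num (w 0 : ℕ) (w 1 : ℕ) 0 Z1 ∧ (P1 n b w (Fin.cons Z1 (Fin.tail V)) ∧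
      MulP b (w 0 : ℕ) (w 1 : ℕ) Z1 (V i.succ) (V 0))),
      ?_, by omega, ?_, ?_⟩
    · refine NS.exS (NS.and (NS.num 0 1 (pc 0) 0) (NS.and ?_ (NS.mulP 0 1 0 i.succ.succ 1)))
      refine (hP1.sub id (Fin.cons 0 (fun i => i.succ.succ) :
          Fin (k + 1) → Fin (k + 2))).congr (fun n b v V => ?_)
      refine Iff.of_eq (congrArg _ ?_)
      funext i
      refine Fin.cases ?_ (fun i => ?_) i <;> rfl
    · intro W x hx
      have a1 := hb1 W x hx
      have a2 := hx i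
      rw [map_mul, MvPolynomial.eval_X, pow_succ]
      have a3 : MvPolynomial.eval x p * x i ≤ MvPolynomial.eval x p * W :=
        Nat.mul_le_mul_left _ a2
      have a4 : (MvPolynomial.eval x p + 2) * (W + 2) ≤ (W + 2) ^ e1 * (W + 2) :=
        Nat.mul_le_mul_right _ a1
      nlinarith
    · intro n b w B M hB hM hctx he Z X z x hZ hX W hxW hW
      have hB1 : 1 ≤ B := by have := hctx.two; omega
      have c1 : (W + 2) ^ e1 ≤ B ^ M :=
        (Nat.pow_le_pow_right (by omega) (by omega)).trans hW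
      have g1 := fun Z1 z1 (hz1 : Cd B M 0 Z1 z1) =>
        h1 n b w B M hB hM hctx (by omega) Z1 X z1 x hz1 hX W hxW c1
      rw [map_mul, MvPolynomial.eval_X]
      simp only [Fin.tail_cons, Fin.cons_zero, Fin.cons_succ, hB, hM]
      constructor
      · rintro ⟨Z1, _, n1, p1, p3⟩
        obtain ⟨z1, hz1⟩ := (hNum n B M 0 Z1 hB1).1 n1
        rw [g1 Z1 z1 hz1] at p1
        rw [mulP_iff hMul hctx hz1 (hX i) hZ] at p3
        rw [← p1, p3]
      · intro h
        have a1 := hb1 W x hxW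
        obtain ⟨Z1, k1, hz1⟩ := ex_code hEx hctx (x := MvPolynomial.eval x p) (by omega)
        exact ⟨Z1, k1, (hNum n B M 0 Z1 hB1).2 ⟨_, hz1⟩, (g1 Z1 _ hz1).2 rfl,
          (mulP_iff hMul hctx hz1 (hX i) hZ).2 h.symm⟩

/-- T5 -/
theorem trans (hNum : StmtNum) (hEx : StmtExCd) (hAdd : StmtAdd) (hMul : StmtMul) :
    StmtTrans := by
  intro k S hS
  have main : ∃ (e : ℕ) (P : Pd 2 k), NS 2 k P ∧ 1 ≤ e ∧ ∀ (n b : ℕ) (w : Fin 2 → Fin n)
      (B M : ℕ), (w 0 : ℕ) = B → (w 1 : ℕ) = M → Ctx n b B M → e ≤ B →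
      ∀ (X : Fin k → Finset (Fin n)) (x : Fin k → ℕ), (∀ i, Cd B M 0 (X i) (x i)) →
      ∀ W, (∀ i, x i ≤ W) → (W + 2) ^ e ≤ B ^ M → (P n b w X ↔ x ∈ S) := by
    induction hS with
    | atom k p q =>
      obtain ⟨e1, P1, hP1, he1, hb1, h1⟩ := tpoly hNum hEx hAdd hMul p
      obtain ⟨e2, P2, hP2, he2, hb2, h2⟩ := tpoly hNum hEx hAdd hMul q
      refine ⟨max e1 e2, fun n b w V => ∃ Z : Finset (Fin n), Z.card ≤ b ∧
        (Num (w 0 : ℕ) (w 1 : ℕ) 0 Z ∧ (P1 n b w (Fin.cons Z V) ∧ P2 n b w (Fin.cons Z V))),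
        ?_, by omega, ?_⟩
      · refine NS.exS (NS.and (NS.num 0 1 (pc 0) 0) (NS.and (hP1.congr (fun n b v V => ?_))
          (hP2.congr (fun n b v V => ?_))))
        · rw [Fin.cons_self_tail]
        · rw [Fin.cons_self_tail]
      · intro n b w B M hB hM hctx he X x hX W hxW hW
        have hB1 : 1 ≤ B := by have := hctx.two; omega
        have c1 : (W + 2) ^ e1 ≤ B ^ M :=
          (Nat.pow_le_pow_right (by omega) (by omega)).trans hW
        have c2 : (W + 2) ^ e2 ≤ B ^ M :=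
          (Nat.pow_le_pow_right (by omega) (by omega)).trans hW
        have g1 := fun Z1 z1 (hz1 : Cd B M 0 Z1 z1) =>
          h1 n b w B M hB hM hctx (by omega) Z1 X z1 x hz1 hX W hxW c1
        have g2 := fun Z1 z1 (hz1 : Cd B M 0 Z1 z1) =>
          h2 n b w B M hB hM hctx (by omega) Z1 X z1 x hz1 hX W hxW c2
        simp only [hB, hM, Set.mem_ofPred_eq]
        constructor
        · rintro ⟨Z1, _, n1, p1, p2⟩
          obtain ⟨z1, hz1⟩ := (hNum n B M 0 Z1 hB1).1 n1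
          rw [g1 Z1 z1 hz1] at p1
          rw [g2 Z1 z1 hz1] at p2
          rw [← p1, p2]
        · intro h
          have a1 := hb1 W x hxW
          obtain ⟨Z1, k1, hz1⟩ := ex_code hEx hctx (x := MvPolynomial.eval x p) (by omega)
          exact ⟨Z1, k1, (hNum n B M 0 Z1 hB1).2 ⟨_, hz1⟩, (g1 Z1 _ hz1).2 rfl,
            (g2 Z1 _ hz1).2 h⟩
    | compl k S _ ih =>
      obtain ⟨e, P, hP, he, h⟩ := ih
      exact ⟨e, fun n b w X => ¬ P n b w X, hP.not, he,
        fun n b w B M hB hM hctx he X x hX W hxW hW =>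
          not_congr (h n b w B M hB hM hctx he X x hX W hxW hW)⟩
    | inter k S T _ _ ih ih' =>
      obtain ⟨e1, P1, hP1, he1, h1⟩ := ih
      obtain ⟨e2, P2, hP2, he2, h2⟩ := ih'
      exact ⟨max e1 e2, fun n b w X => P1 n b w X ∧ P2 n b w X, hP1.and hP2, by omega,
        fun n b w B M hB hM hctx he X x hX W hxW hW => and_congr
          (h1 n b w B M hB hM hctx (by omega) X x hX W hxW
            ((Nat.pow_le_pow_right (by omega) (by omega)).trans hW))
          (h2 n b w B M hB hM hctx (by omega) X x hX W hxW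
            ((Nat.pow_le_pow_right (by omega) (by omega)).trans hW))⟩
    | bex k p S _ ih =>
      obtain ⟨e1, P1, hP1, he1, hb1, h1⟩ := tpoly hNum hEx hAdd hMul p
      obtain ⟨e2, P2, hP2, he2, h2⟩ := ih
      refine ⟨e1 * e2, fun n b w V => ∃ Z : Finset (Fin n), Z.card ≤ b ∧
        ∃ X' : Finset (Fin n), X'.card ≤ b ∧ ∃ Y' : Finset (Fin n), Y'.card ≤ b ∧
        (Num (w 0 : ℕ) (w 1 : ℕ) 0 Z ∧ (Num (w 0 : ℕ) (w 1 : ℕ) 0 X' ∧
        (Num (w 0 : ℕ) (w 1 : ℕ) 0 Y' ∧ (P1 n b w (Fin.cons Z V) ∧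
        (AddP b (w 0 : ℕ) (w 1 : ℕ) X' Y' Z ∧ P2 n b w (Fin.cons X' V)))))),
        ?_, Nat.mul_pos he1 he2, ?_⟩
      · refine NS.exS (NS.exS (NS.exS (NS.and (NS.num 0 1 (pc 0) 2) (NS.and
          (NS.num 0 1 (pc 0) 1) (NS.and (NS.num 0 1 (pc 0) 0) (NS.and ?_
          (NS.and (NS.addP 0 1 1 0 2) ?_)))))))
        · refine (hP1.sub id (Fin.cons 2 (fun i => i.succ.succ.succ) :
            Fin (k + 1) → Fin (k + 3))).congr (fun n b v V => ?_)
          refine Iff.of_eq (congrArg _ ?_)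
          funext i
          refine Fin.cases ?_ (fun i => ?_) i <;> rfl
        · refine (hP2.sub id (Fin.cons 1 (fun i => i.succ.succ.succ) :
            Fin (k + 1) → Fin (k + 3))).congr (fun n b v V => ?_)
          refine Iff.of_eq (congrArg _ ?_)
          funext i
          refine Fin.cases ?_ (fun i => ?_) i <;> rfl
      · intro n b w B M hB hM hctx he X x hX W hxW hW
        have hB1 : 1 ≤ B := by have := hctx.two; omega
        have he12 : e1 ≤ e1 * e2 := Nat.le_mul_of_pos_right _ he2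
        have he21 : e2 ≤ e1 * e2 := Nat.le_mul_of_pos_left _ he1
        have c1 : (W + 2) ^ e1 ≤ B ^ M :=
          (Nat.pow_le_pow_right (by omega) he12).trans hW
        have g1 := fun Z1 z1 (hz1 : Cd B M 0 Z1 z1) =>
          h1 n b w B M hB hM hctx (by omega) Z1 X z1 x hz1 hX W hxW c1
        have a1 := hb1 W x hxW
        have g2 : ∀ X' x', Cd B M 0 X' x' → x' ≤ MvPolynomial.eval x p →
            (P2 n b w (Fin.cons X' X) ↔ (Fin.cons x' x : Fin (k + 1) → ℕ) ∈ S) := by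
          intro X' x' hx' hle
          refine h2 n b w B M hB hM hctx (by omega) (Fin.cons X' X) (Fin.cons x' x) ?_
            ((W + 2) ^ e1 - 2) ?_ ?_
          · intro i
            refine Fin.cases ?_ (fun i => ?_) i
            · exact hx'
            · exact hX i
          · intro i
            have hWe : W + 2 ≤ (W + 2) ^ e1 := by
              calc W + 2 = (W + 2) ^ 1 := (pow_one _).symm
                _ ≤ (W + 2) ^ e1 := Nat.pow_le_pow_right (by omega) he1
            refine Fin.cases ?_ (fun i => ?_) i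
            · show x' ≤ _
              omega
            · show x i ≤ _
              have := hxW i
              omega
          · have : (W + 2) ^ e1 - 2 + 2 = (W + 2) ^ e1 := by omega
            rw [this, ← pow_mul]
            exact hW
        simp only [hB, hM, Set.mem_ofPred_eq]
        constructor
        · rintro ⟨Z, _, X', _, Y', _, n1, n2, n3, p1, p2, p3⟩
          obtain ⟨z, hz⟩ := (hNum n B M 0 Z hB1).1 n1
          obtain ⟨x', hx'⟩ := (hNum n B M 0 X' hB1).1 n2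
          obtain ⟨y', hy'⟩ := (hNum n B M 0 Y' hB1).1 n3
          rw [g1 Z z hz] at p1
          rw [addP_iff hAdd hctx hx' hy' hz] at p2
          have hle : x' ≤ MvPolynomial.eval x p := by omega
          rw [g2 X' x' hx' hle] at p3
          exact ⟨x', hle, p3⟩
        · rintro ⟨x', hle, h⟩
          obtain ⟨Z, k1, hz⟩ := ex_code hEx hctx (x := MvPolynomial.eval x p) (by omega)
          obtain ⟨X', k2, hx'⟩ := ex_code hEx hctx (x := x') (by omega)
          obtain ⟨Y', k3, hy'⟩ := ex_code hEx hctx (x := MvPolynomial.eval x p - x') (by omega)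
          exact ⟨Z, k1, X', k2, Y', k3, (hNum n B M 0 Z hB1).2 ⟨_, hz⟩,
            (hNum n B M 0 X' hB1).2 ⟨_, hx'⟩, (hNum n B M 0 Y' hB1).2 ⟨_, hy'⟩,
            (g1 Z _ hz).2 rfl, (addP_iff hAdd hctx hx' hy' hz).2 (by omega),
            (g2 X' x' hx' hle).2 h⟩
  obtain ⟨e, P, hP, _, h⟩ := main
  exact ⟨e, P, hP, fun n b w B M hB hM h2 he hBB hc hr X x hX W hxW hW =>
    h n b w B M hB hM ⟨h2, hBB, hc, hr⟩ he X x hX W hxW hW⟩

end Pool.Agent.Helper14.SS
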